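import Mathlib

/-!
# Heights and field extensions

Leaf module of `ESD` (problem MP_9b9442). For `x` integral, `NumberField.mulHeight_eq` and
`NumberField.absNorm_mul_finprod_finitePlace_eq_one` give
`mulHeight x * absNorm (span (range x)) = ∏ over infinite places`; the norm of the extended ideal
is `Ideal.absNorm_algebraMap`; for the infinite places write both sides as products over complex
embeddings (`InfinitePlace.card_filter_mk_eq`), each embedding of `F` having `[M : F]` extensions
(`AlgHom.card`). The general case by scaling (`Height.logHeight_smul_eq_logHeight`).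
-/

set_option autoImplicit false

open NumberField Module

namespace ESD

namespace HtExt

/-- every complex embedding of `F` has `[M : F]` extensions -/
theorem card_extensions {F M : Type*} [Field F] [NumberField F] [Field M] [NumberField M]
    [Algebra F M] [DecidableEq (F →+* ℂ)] (ψ : F →+* ℂ) :
    (Finset.univ.filter fun φ : M →+* ℂ => φ.comp (algebraMap F M) = ψ).card = finrank F M := by
  let _ := ψ.toAlgebra
  have e : (M →ₐ[F] ℂ) ≃ {φ : M →+* ℂ // φ.comp (algebraMap F M) = ψ} :=
    { toFun := fun f => ⟨f.toRingHom, RingHom.ext fun r => f.commutes r⟩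
      invFun := fun φ => { φ.1 with commutes' := fun r => RingHom.congr_fun φ.2 r }
      left_inv := fun f => by ext; rfl
      right_inv := fun φ => by ext; rfl }
  have : FiniteDimensional F M := Module.Finite.of_restrictScalars_finite ℚ F M
  rw [← AlgHom.card F M ℂ, Fintype.card_congr e, Fintype.card_subtype]

theorem prod_embeddings {K : Type*} [Field K] [NumberField K] (h : InfinitePlace K → ℝ) :
    ∏ φ : K →+* ℂ, h (InfinitePlace.mk φ) = ∏ w : InfinitePlace K, h w ^ w.mult := by
  classical
  rw [← Finset.prod_fiberwise Finset.univ InfinitePlace.mk (fun φ => h (InfinitePlace.mk φ))]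
  refine Finset.prod_congr rfl fun w _ => ?_
  rw [Finset.prod_congr rfl fun φ hφ => by rw [(Finset.mem_filter.mp hφ).2], Finset.prod_const,
    InfinitePlace.card_filter_mk_eq]

theorem prod_infinite {F M : Type*} [Field F] [NumberField F] [Field M] [NumberField M]
    [Algebra F M] (h : InfinitePlace F → ℝ) :
    ∏ w : InfinitePlace M, h (w.comap (algebraMap F M)) ^ w.mult =
      (∏ v : InfinitePlace F, h v ^ v.mult) ^ finrank F M := by
  classical
  rw [← prod_embeddings (fun w : InfinitePlace M => h (w.comap (algebraMap F M))),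
    ← prod_embeddings h, ← Finset.prod_pow,
    ← Finset.prod_fiberwise Finset.univ (fun φ : M →+* ℂ => φ.comp (algebraMap F M))]
  refine Finset.prod_congr rfl fun ψ _ => ?_
  rw [← card_extensions (M := M) ψ, ← Finset.prod_const]
  refine Finset.prod_congr rfl fun φ hφ => ?_
  rw [InfinitePlace.comap_mk, (Finset.mem_filter.mp hφ).2]

theorem mulHeight_mul_absNorm {K : Type*} [Field K] [NumberField K] {ι : Type*} [Finite ι]
    {x : ι → 𝓞 K} (hx : x ≠ 0) :
    Height.mulHeight (fun i => (x i : K)) * (Ideal.span (Set.range x)).absNorm =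
      ∏ v : InfinitePlace K, (⨆ i, v (x i : K)) ^ v.mult := by
  have hx' : (fun i => (x i : K)) ≠ 0 := by
    intro h
    apply hx
    funext i
    have h1 : (x i : K) = 0 := congrFun h i
    rw [Pi.zero_apply]
    exact_mod_cast h1
  rw [NumberField.mulHeight_eq hx', mul_assoc, mul_comm (∏ᶠ _, _),
    NumberField.absNorm_mul_finprod_finitePlace_eq_one hx, mul_one]

theorem mulHeight_integral {F M : Type*} [Field F] [NumberField F] [Field M] [NumberField M]
    [Algebra F M] {ι : Type*} [Finite ι] {x : ι → 𝓞 F} (hx : x ≠ 0) :
    Height.mulHeight (fun i => algebraMap F M (x i)) =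
      Height.mulHeight (fun i => (x i : F)) ^ finrank F M := by
  set y : ι → 𝓞 M := fun i => algebraMap (𝓞 F) (𝓞 M) (x i) with hy
  have hinj : Function.Injective (algebraMap (𝓞 F) (𝓞 M)) :=
    FaithfulSMul.algebraMap_injective (𝓞 F) (𝓞 M)
  have hy0 : y ≠ 0 := by
    intro h
    apply hx
    funext i
    have h1 := congrFun h i
    exact (map_eq_zero_iff _ hinj).1 h1
  have hyx : ∀ i, (y i : M) = algebraMap F M (x i) := fun i => rfl
  have h1 := mulHeight_mul_absNorm hx
  have h2 := mulHeight_mul_absNorm hy0
  have h3 : Ideal.span (Set.range y) = (Ideal.span (Set.range x)).map (algebraMap (𝓞 F) (𝓞 M)) := by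
    rw [Ideal.map_span, ← Set.range_comp]
    rfl
  have h4 : finrank (𝓞 F) (𝓞 M) = finrank F M :=
    (IsFractionRing.finrank_eq (𝓞 F) F (𝓞 M) M).symm
  have h5 : ∏ v : InfinitePlace M, (⨆ i, v (y i : M)) ^ v.mult =
      (∏ v : InfinitePlace F, (⨆ i, v (x i : F)) ^ v.mult) ^ finrank F M := by
    rw [← prod_infinite (M := M) (fun v : InfinitePlace F => ⨆ i, v (x i : F))]
    rfl
  rw [h5, ← h1, h3, Ideal.absNorm_algebraMap, h4, mul_pow] at h2
  have h6 : ((Ideal.span (Set.range x)).absNorm : ℝ) ≠ 0 := by
    rw [Nat.cast_ne_zero, Ne, Ideal.absNorm_eq_zero_iff, Ideal.span_eq_bot]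
    intro h
    apply hx
    funext i
    exact h (x i) ⟨i, rfl⟩
  push_cast at h2
  exact mul_right_cancel₀ (pow_ne_zero _ h6) h2

end HtExt

open HtExt in
theorem logHeight_algebraMap {F M : Type*} [Field F] [NumberField F] [Field M] [NumberField M]
    [Algebra F M] {ι : Type*} [Finite ι] (x : ι → F) :
    Height.logHeight (fun i => algebraMap F M (x i)) =
      finrank F M * Height.logHeight x := by
  by_cases hx : x = 0
  · subst hx
    have : (fun i : ι => algebraMap F M ((0 : ι → F) i)) = 0 := by
      funext i
      simp
    rw [this, Height.logHeight_zero, Height.logHeight_zero, mul_zero]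
  · obtain ⟨c, hc⟩ := IsLocalization.exist_integer_multiples_of_finite
      (nonZeroDivisors (𝓞 F)) x
    have hc0 : ((c : 𝓞 F) : F) ≠ 0 := by
      have := nonZeroDivisors.coe_ne_zero c
      exact_mod_cast this
    choose z hz using hc
    have hz' : ∀ i, (z i : F) = ((c : 𝓞 F) : F) * x i := by
      intro i
      have := hz i
      rw [Algebra.smul_def] at this
      exact this
    have hz0 : z ≠ 0 := by
      intro h
      apply hx
      funext i
      have h1 := hz' i
      rw [h] at h1
      simp only [Pi.zero_apply, map_zero] at h1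
      exact (mul_eq_zero.1 h1.symm).resolve_left hc0
    have hM0 : algebraMap F M ((c : 𝓞 F) : F) ≠ 0 := by
      rw [Ne, map_eq_zero]
      exact hc0
    have e1 : Height.logHeight x = Height.logHeight (fun i => (z i : F)) := by
      rw [← Height.logHeight_smul_eq_logHeight x hc0]
      congr 1
      funext i
      rw [hz']
      rfl
    have e2 : Height.logHeight (fun i => algebraMap F M (x i)) =
        Height.logHeight (fun i => algebraMap F M (z i)) := by
      rw [← Height.logHeight_smul_eq_logHeight (fun i => algebraMap F M (x i)) hM0]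
      congr 1
      funext i
      rw [hz', map_mul]
      rfl
    rw [e1, e2, Height.logHeight_eq_log_mulHeight, Height.logHeight_eq_log_mulHeight,
      mulHeight_integral hz0, Real.log_pow]

end ESD
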