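import Pool.Agent.ESD.Dbl
import Pool.Agent.ESD.HtExt

/-!
# Chains of the arithmetic-geometric mean
-/

set_option autoImplicit false

open NumberField Module Height

namespace ESD

/-- A chain of length `J` of the (rescaled) arithmetic-geometric mean starting at `(1, 2 ^ k)`. -/
structure IsAgm {R : Type*} [CommRing R] (k J : ℕ) (a b : ℕ → R) : Prop where
  a0 : a 0 = 1
  b0 : b 0 = 2 ^ k
  a1 : ∀ j < J, a (j + 1) = a j + b j
  b1 : ∀ j < J, b (j + 1) ^ 2 = 4 * (a j * b j)

namespace IsAgm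

variable {R S : Type*} [CommRing R] [CommRing S] {k J : ℕ} {a b : ℕ → R}

theorem map (h : IsAgm k J a b) (f : R →+* S) :
    IsAgm k J (fun j => f (a j)) (fun j => f (b j)) where
  a0 := by simp [h.a0]
  b0 := by simp [h.b0, map_ofNat]
  a1 j hj := by rw [h.a1 j hj, map_add]
  b1 j hj := by rw [← map_pow, h.b1 j hj]; simp [map_ofNat]

theorem not_mem (h : IsAgm k J a b) (P : Ideal R) [P.IsPrime]
    (h2 : (2 : R) ∉ P) (ha : (1 - 2 ^ (2 * k) : R) ∉ P) :
    ∀ j ≤ J, a j ∉ P ∧ b j ∉ P ∧ a j ^ 2 - b j ^ 2 ∉ P := by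
  have hP : P.IsPrime := inferInstance
  have hpow' : ∀ {x : R} (k : ℕ), x ∉ P → x ^ k ∉ P := by
    intro x k hx hmem
    exact hx (hP.mem_of_pow_mem k hmem)
  have hmul : ∀ {x y : R}, x ∉ P → y ∉ P → x * y ∉ P := by
    intro x y hx hy hmem
    rcases hP.mem_or_mem hmem with h1 | h1
    · exact hx h1
    · exact hy h1
  intro j
  induction j with
  | zero =>
    intro _
    refine ⟨?_, ?_, ?_⟩
    · rw [h.a0]
      exact fun h1 => hP.ne_top ((Ideal.eq_top_iff_one P).2 h1)
    · rw [h.b0]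
      exact hpow' k h2
    · rw [h.a0, h.b0, one_pow, ← pow_mul, mul_comm k 2]
      exact ha
  | succ j ih =>
    intro hj
    obtain ⟨hx, hy, hz⟩ := ih (by omega)
    have e1 : (a j + b j) * (a j - b j) ∉ P := by
      convert hz using 1
      ring
    refine ⟨?_, ?_, ?_⟩
    · rw [h.a1 j (by omega)]
      intro hmem
      exact e1 (P.mul_mem_right _ hmem)
    · intro hmem
      have e2 : b (j + 1) ^ 2 ∉ P := by
        rw [h.b1 j (by omega)]
        have e3 : (4 : R) = 2 * 2 := by norm_num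
        rw [e3]
        exact hmul (hmul h2 h2) (hmul hx hy)
      exact e2 (P.pow_mem_of_mem hmem 2 (by norm_num))
    · rw [h.a1 j (by omega), h.b1 j (by omega)]
      have e2 : (a j + b j) ^ 2 - 4 * (a j * b j) = (a j - b j) ^ 2 := by ring
      rw [e2]
      apply hpow'
      intro hmem
      exact e1 (P.mul_mem_left _ hmem)

theorem isIntegral (h : IsAgm k J a b) : ∀ j ≤ J, IsIntegral ℤ (a j) ∧ IsIntegral ℤ (b j) := by
  have h2 : IsIntegral ℤ (2 : R) := by
    have := isIntegral_algebraMap (R := ℤ) (A := R) (x := 2)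
    simpa using this
  have h4 : IsIntegral ℤ (4 : R) := by
    have := isIntegral_algebraMap (R := ℤ) (A := R) (x := 4)
    simpa using this
  intro j
  induction j with
  | zero =>
    intro _
    refine ⟨?_, ?_⟩
    · rw [h.a0]
      exact isIntegral_one
    · rw [h.b0]
      exact h2.pow _
  | succ j ih =>
    intro hj
    obtain ⟨hx, hy⟩ := ih (by omega)
    refine ⟨?_, ?_⟩
    · rw [h.a1 j (by omega)]
      exact hx.add hy
    · apply IsIntegral.of_pow (n := 2) (by norm_num)
      rw [h.b1 j (by omega)]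
      exact h4.mul (hx.mul hy)

theorem norm {Ω : Type*} [NormedField Ω] (hΩ : IsNonarchimedean (norm : Ω → ℝ))
    (h2 : ‖(2 : Ω)‖ = 1 / 2) (hk : 2 ≤ k) {a b : ℕ → Ω} (h : IsAgm k J a b) :
    ∀ j ≤ J, ‖a j‖ = 1 ∧ ‖b j‖ = (2 : ℝ) ^ (-(2 + ((k : ℝ) - 2) / 2 ^ j)) := by
  have : IsUltrametricDist Ω := IsUltrametricDist.isUltrametricDist_of_isNonarchimedean_norm hΩ
  have hk0 : (2 : ℝ) ≤ k := by exact_mod_cast hk
  intro j
  induction j with
  | zero =>
    intro _
    refine ⟨by rw [h.a0, norm_one], ?_⟩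
    rw [h.b0, norm_pow, h2]
    simp only [pow_zero, div_one]
    rw [show (2 : ℝ) + ((k : ℝ) - 2) = k by ring, Real.rpow_neg (by norm_num), Real.rpow_natCast,
      one_div, inv_pow]
  | succ j ih =>
    intro hj
    obtain ⟨hx, hz⟩ := ih (by omega)
    have hz1 : ‖b j‖ < 1 := by
      rw [hz]
      apply Real.rpow_lt_one_of_one_lt_of_neg (by norm_num)
      have h1 : (0 : ℝ) ≤ ((k : ℝ) - 2) / 2 ^ j := div_nonneg (by linarith) (by positivity)
      linarith
    constructor
    · rw [h.a1 j (by omega), IsUltrametricDist.norm_add_eq_max_of_norm_ne_norm (by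
        rw [hx]; exact hz1.ne'), hx, max_eq_left hz1.le]
    · have hZ := congrArg (fun x => ‖x‖) (h.b1 j (by omega))
      simp only [norm_mul, norm_pow, hx, one_mul] at hZ
      have e4 : ‖(4 : Ω)‖ = 1 / 4 := by
        rw [show (4 : Ω) = 2 * 2 by norm_num, norm_mul, h2]
        norm_num
      rw [e4] at hZ
      have h4 : ((2 : ℝ) ^ (-(2 + ((k : ℝ) - 2) / 2 ^ (j + 1)))) ^ 2 = 1 / 4 * ‖b j‖ := by
        rw [hz, ← Real.rpow_mul_natCast (by norm_num),
          show (1 / 4 : ℝ) = 2 ^ (-2 : ℝ) by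
            rw [show (-2 : ℝ) = ((-2 : ℤ) : ℝ) by norm_num, Real.rpow_intCast]; norm_num,
          ← Real.rpow_add (by norm_num)]
        congr 1
        push_cast
        rw [pow_succ]
        have h2j : (2 : ℝ) ^ j ≠ 0 := by positivity
        field_simp
        ring
      rw [← h4] at hZ
      exact (pow_left_inj₀ (norm_nonneg _) (by positivity) (by norm_num)).1 hZ

/-- Lift a chain along an injective ring homomorphism. -/
theorem exists_preimage (ι : R →+* S) (hι : Function.Injective ι) {a b : ℕ → S}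
    (h : IsAgm k J a b) (hi : ∀ j ≤ J, (∃ x, ι x = a j) ∧ ∃ x, ι x = b j) :
    ∃ a' b' : ℕ → R, IsAgm k J a' b' ∧ ∀ j ≤ J, ι (a' j) = a j ∧ ι (b' j) = b j := by
  classical
  have hX : ∀ j, ∃ x : R, j ≤ J → ι x = a j := fun j => by
    by_cases hj : j ≤ J
    · obtain ⟨x, hx⟩ := (hi j hj).1
      exact ⟨x, fun _ => hx⟩
    · exact ⟨0, fun h => absurd h hj⟩
  have hY : ∀ j, ∃ x : R, j ≤ J → ι x = b j := fun j => by
    by_cases hj : j ≤ J
    · obtain ⟨x, hx⟩ := (hi j hj).2
      exact ⟨x, fun _ => hx⟩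
    · exact ⟨0, fun h => absurd h hj⟩
  choose a' ha' using hX
  choose b' hb' using hY
  refine ⟨a', b', ?_, fun j hj => ⟨ha' j hj, hb' j hj⟩⟩
  constructor
  · apply hι
    rw [ha' 0 (Nat.zero_le _), h.a0, map_one]
  · apply hι
    rw [hb' 0 (Nat.zero_le _), h.b0, map_pow, map_ofNat]
  · intro j hj
    apply hι
    rw [map_add, ha' (j + 1) (by omega), ha' j (by omega), hb' j (by omega), h.a1 j hj]
  · intro j hj
    apply hι
    rw [map_pow, map_mul, map_mul, map_ofNat, hb' (j + 1) (by omega), ha' j (by omega),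
      hb' j (by omega), h.b1 j hj]

end IsAgm

/-- Chains exist over an algebraically closed field. -/
theorem exists_isAgm (Ω : Type*) [Field Ω] [IsAlgClosed Ω] (k : ℕ) :
    ∃ a b : ℕ → Ω, ∀ J, IsAgm k J a b := by
  have hroot : ∀ a : Ω, ∃ z, z ^ 2 = a := fun a => IsAlgClosed.exists_pow_nat_eq a (by norm_num)
  choose r hr using hroot
  let step : Ω × Ω → Ω × Ω := fun p => (p.1 + p.2, r (4 * (p.1 * p.2)))
  let c : ℕ → Ω × Ω := fun j => step^[j] (1, 2 ^ k)
  have hc : ∀ j, c (j + 1) = step (c j) := fun j => Function.iterate_succ_apply' step j _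
  refine ⟨fun j => (c j).1, fun j => (c j).2, fun J => ?_⟩
  refine ⟨rfl, rfl, ?_, ?_⟩
  · intro j _
    simp only [hc]
    rfl
  · intro j _
    simp only [hc]
    exact hr _

theorem logHeight_two_pow {M : Type*} [Field M] [NumberField M] (s : ℕ) :
    logHeight ![(1 : M), 2 ^ s] = finrank ℚ M * (s * Real.log 2) := by
  have h := logHeight_algebraMap (F := ℚ) (M := M) ![(1 : ℚ), 2 ^ s]
  have h1 : (fun i => algebraMap ℚ M (![(1 : ℚ), 2 ^ s] i)) = ![(1 : M), 2 ^ s] := by
    funext i
    fin_cases i <;> simp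
  rw [h1] at h
  rw [h, logHeight_swap, ← logHeight₁_eq_logHeight, logHeight₁_pow]
  have h2 := Rat.logHeight₁_natCast 2
  push_cast at h2
  rw [h2]

theorem logHeight_pair_zero {M : Type*} [Field M] [NumberField M] :
    logHeight (fun ji : Fin 2 × Fin 2 => (if ji = (1, 1) then (-1 : M) else
      if ji = (0, 1) then 0 else 1)) ≤ 0 := by
  have h2 : (fun ji : Fin 2 × Fin 2 => (if ji = (1, 1) then (-1 : M) else
      if ji = (0, 1) then 0 else 1)) ^ 2 =
      ![(0 : M), 1] ∘ (fun ji : Fin 2 × Fin 2 => if ji = (0, 1) then (0 : Fin 2) else 1) := by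
    funext ji
    fin_cases ji <;> simp
  have h1 := logHeight_pow (fun ji : Fin 2 × Fin 2 => (if ji = (1, 1) then (-1 : M) else
      if ji = (0, 1) then 0 else 1)) 2
  rw [h2] at h1
  have h3 := logHeight_comp_le
    (fun ji : Fin 2 × Fin 2 => if ji = (0, 1) then (0 : Fin 2) else 1) ![(0 : M), 1]
  have h4 : logHeight ![(0 : M), 1] = 0 := by
    rw [← logHeight₁_eq_logHeight, logHeight₁_zero]
  rw [h4] at h3
  rw [h1] at h3
  push_cast at h3
  linarith

theorem logHeight_sub_le {M : Type*} [Field M] [NumberField M] (u w : M) :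
    logHeight ![u, u - w] ≤ logHeight ![u, w] + finrank ℚ M * Real.log 2 := by
  have h := logHeight_linearMap_apply_le
    (fun ji : Fin 2 × Fin 2 => (if ji = (1, 1) then (-1 : M) else
      if ji = (0, 1) then 0 else 1)) ![u, w]
  have h1 : (fun j => ∑ i, (fun ji : Fin 2 × Fin 2 => (if ji = (1, 1) then (-1 : M) else
      if ji = (0, 1) then 0 else 1)) (j, i) * ![u, w] i) = ![u, u - w] := by
    funext j
    fin_cases j
    · simp
    · simp [sub_eq_add_neg]
  rw [h1, NumberField.totalWeight_eq_finrank, Nat.card_eq_fintype_card, Fintype.card_fin] at h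
  have h2 := logHeight_pair_zero (M := M)
  push_cast at h
  linarith

/-- The height along a chain. -/
theorem IsAgm.logHeight_ge {M : Type*} [Field M] [NumberField M] {k J : ℕ} {a b : ℕ → M}
    (h : IsAgm k J a b) :
    ∀ j ≤ J, finrank ℚ M * ((k - 2 * j) * Real.log 2) ≤ logHeight ![a j, b j] := by
  have hd : 0 ≤ (finrank ℚ M : ℝ) * Real.log 2 :=
    mul_nonneg (Nat.cast_nonneg _) (Real.log_nonneg (by norm_num))
  intro j
  induction j with
  | zero =>
    intro _
    rw [h.a0, h.b0, logHeight_two_pow]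
    push_cast
    apply le_of_eq
    ring
  | succ j ih =>
    intro hj
    have h1 := ih (by omega)
    have h2 := logHeight_add_sub_le (a j + b j) (a j - b j)
    have h3 : ![(a j + b j) + (a j - b j), (a j + b j) - (a j - b j)] = (2 : M) • ![a j, b j] := by
      funext i
      fin_cases i
      · simp; ring
      · simp; ring
    rw [h3, logHeight_smul_eq_logHeight _ (two_ne_zero)] at h2
    have h4 := logHeight_sub_le (a (j + 1) ^ 2) (b (j + 1) ^ 2)
    have h5 : ![a (j + 1) ^ 2, a (j + 1) ^ 2 - b (j + 1) ^ 2] =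
        ![a j + b j, a j - b j] ^ 2 := by
      funext i
      fin_cases i
      · simp [h.a1 j (by omega)]
      · change a (j + 1) ^ 2 - b (j + 1) ^ 2 = (a j - b j) ^ 2
        rw [h.a1 j (by omega), h.b1 j (by omega)]
        ring
    have h6 : ![a (j + 1) ^ 2, b (j + 1) ^ 2] = ![a (j + 1), b (j + 1)] ^ 2 := by
      funext i
      fin_cases i <;> simp
    rw [h5, h6, logHeight_pow, logHeight_pow] at h4
    push_cast at h4 ⊢
    nlinarith

end ESD
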