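import Pool.Agent.ESD.AgmField

/-!
# Degree, discriminant and height of the points of a chain
-/

set_option autoImplicit false

open NumberField Module IntermediateField Height

namespace ESD

section

variable {K Ω ι : Type*} [Field K] [NumberField K] [Field Ω] [Algebra K Ω] [Fintype ι]
  {k m J : ℕ} {a b : ℕ → Ω} {w : ι → Ω}

omit [NumberField K] in
theorem finiteDimensional_of_le (F L : IntermediateField K Ω) (hFL : F ≤ L)
    [FiniteDimensional K L] : FiniteDimensional K F :=
  FiniteDimensional.of_injective (inclusion hFL).toLinearMap (inclusion_injective hFL)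

omit [NumberField K] in
theorem finrank_le (hm : 1 ≤ m) (h : IsAgm k J a b) (hw : IsRoot m J a b w)
    (F : IntermediateField K Ω) (hF : F ≤ adjoin K (gens J a b w)) :
    finrank K F ≤ m ^ Fintype.card ι * 2 ^ J := by
  obtain ⟨h1, h2⟩ := finrank_adjoin_gens (K := K) hm h hw
  exact (finrank_le_of_le_right hF).trans h2

theorem logDisc_field_le [Normal K Ω] (hm : 1 ≤ m) (hk : 1 ≤ k) (h : IsAgm k J a b)
    (hw : IsRoot m J a b w) (F : IntermediateField K Ω) [NumberField F]
    (hF : F ≤ adjoin K (gens J a b w)) :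
    Real.log |(discr F : ℝ)| / finrank K F - Real.log |(discr K : ℝ)| ≤
      finrank ℚ K * (Real.log ((m ^ Fintype.card ι * 2 ^ J).factorial) + Real.log (2 * m) +
        2 * k * Real.log 2) := by
  obtain ⟨L, hL⟩ : ∃ L, L = adjoin K (gens J a b w) := ⟨_, rfl⟩
  obtain ⟨hfd, hdeg⟩ := finrank_adjoin_gens (K := K) hm h hw
  rw [← hL] at hF hfd hdeg
  have hfdM : FiniteDimensional K (normalClosure K L Ω) := inferInstance
  have hnf : NumberField (normalClosure K L Ω) := NumberField.of_module_finite K _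
  have hgal : IsGalois K (normalClosure K L Ω) := by
    have : Normal K (normalClosure K L Ω) := inferInstance
    exact ⟨⟩
  have hM : finrank K (normalClosure K L Ω) ≤ (m ^ Fintype.card ι * 2 ^ J).factorial :=
    (finrank_normalClosure_le L).trans (Nat.factorial_le hdeg)
  have hFM : F ≤ normalClosure K L Ω := hF.trans L.le_normalClosure
  have h2 : 2 ≤ 2 ^ (2 * k) := by
    calc 2 = 2 ^ 1 := rfl
      _ ≤ 2 ^ (2 * k) := Nat.pow_le_pow_right (by norm_num) (by omega)
  have hA : 2 * m * (2 ^ (2 * k) - 1) ≠ 0 := by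
    apply mul_ne_zero (by omega)
    omega
  have h3 := logDisc_le (K := K) (M := normalClosure K L Ω) _ hA
    (fun P hP hmem => by
      have := hP
      exact not_dvd_of_not_mem hm h hw L hL P hmem)
  let : Algebra F (normalClosure K L Ω) := (inclusion hFM).toRingHom.toAlgebra
  have : IsScalarTower K F (normalClosure K L Ω) := IsScalarTower.of_algebraMap_eq' rfl
  have h4 := logDisc_mono K F (normalClosure K L Ω)
  have hpos : (0 : ℝ) < finrank K (normalClosure K L Ω) := by
    exact_mod_cast finrank_pos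
  have hμ0 : (0 : ℝ) < 2 * m := by
    have : (1 : ℝ) ≤ m := by exact_mod_cast hm
    linarith
  have h5 : Real.log (finrank K (normalClosure K L Ω) *
      ((2 * m * (2 ^ (2 * k) - 1) : ℕ) : ℝ)) ≤
      Real.log ((m ^ Fintype.card ι * 2 ^ J).factorial) + Real.log (2 * m) +
        2 * k * Real.log 2 := by
    have h6 : (0 : ℝ) < ((2 ^ (2 * k) - 1 : ℕ) : ℝ) := by
      exact_mod_cast (by omega : 0 < 2 ^ (2 * k) - 1)
    rw [Nat.cast_mul, ← mul_assoc, Real.log_mul (by positivity) h6.ne',
      Real.log_mul hpos.ne' (by positivity)]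
    have h7 : Real.log (finrank K (normalClosure K L Ω)) ≤
        Real.log ((m ^ Fintype.card ι * 2 ^ J).factorial) :=
      Real.log_le_log hpos (by exact_mod_cast hM)
    have h8 : Real.log ((2 ^ (2 * k) - 1 : ℕ) : ℝ) ≤ 2 * k * Real.log 2 := by
      have h9 : 2 * (k : ℝ) * Real.log 2 = Real.log ((2 : ℝ) ^ (2 * k)) := by
        rw [Real.log_pow]
        push_cast
        ring
      rw [h9]
      apply Real.log_le_log h6
      have : 2 ^ (2 * k) - 1 ≤ 2 ^ (2 * k) := Nat.sub_le _ _
      exact_mod_cast this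
    push_cast at h7 h8 ⊢
    linarith
  have h6 : (finrank ℚ K : ℝ) * Real.log (finrank K (normalClosure K L Ω) *
      ((2 * m * (2 ^ (2 * k) - 1) : ℕ) : ℝ)) ≤
      finrank ℚ K * (Real.log ((m ^ Fintype.card ι * 2 ^ J).factorial) + Real.log (2 * m) +
        2 * k * Real.log 2) := mul_le_mul_of_nonneg_left h5 (Nat.cast_nonneg _)
  linarith

theorem height_ge (hm : 1 ≤ m) (h : IsAgm k J a b) (hw : IsRoot m J a b w)
    (F : IntermediateField K Ω) [NumberField F] (hF : F ≤ adjoin K (gens J a b w))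
    (j : ℕ) (hj : j ≤ J) (ha : a j ≠ 0) (y z : F) (hz : (z : Ω) ^ m * a j ^ 2 = b j ^ 2) :
    finrank ℚ K * (2 * (k - 2 * j) * Real.log 2) ≤
      m * (logHeight ![1, y, z] / finrank K F) := by
  obtain ⟨L, hL⟩ : ∃ L, L = adjoin K (gens J a b w) := ⟨_, rfl⟩
  obtain ⟨hfd, hdeg⟩ := finrank_adjoin_gens (K := K) hm h hw
  rw [← hL] at hF hfd hdeg
  have hnf : NumberField L := NumberField.of_module_finite K _
  let : Algebra F L := (inclusion hF).toRingHom.toAlgebra
  have : IsScalarTower K F L := IsScalarTower.of_algebraMap_eq' rfl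
  have hmemL : ∀ x ∈ gens J a b w, x ∈ L := fun x hx => by
    rw [hL]
    exact subset_adjoin K _ hx
  obtain ⟨a', b', hc, hc'⟩ := h.exists_preimage (L.val : L →+* Ω) L.val.injective
    (fun j hj => ⟨⟨⟨a j, hmemL _ (Or.inl ⟨j, hj, Or.inl rfl⟩)⟩, rfl⟩,
      ⟨⟨b j, hmemL _ (Or.inl ⟨j, hj, Or.inr rfl⟩)⟩, rfl⟩⟩)
  have h1 := hc.logHeight_ge j hj
  obtain ⟨g1, g2⟩ := hc' j hj
  change (a' j : Ω) = a j at g1
  change (b' j : Ω) = b j at g2
  have ha' : a' j ≠ 0 := by
    intro h0
    apply ha
    rw [← g1, h0]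
    rfl
  have h2 : 2 * logHeight ![a' j, b' j] = m * (finrank F L * logHeight ![1, z]) := by
    have e1 : ((2 : ℕ) : ℝ) * logHeight ![a' j, b' j] = logHeight (![a' j, b' j] ^ 2) := by
      rw [logHeight_pow]
    have e2 : (m : ℝ) * logHeight (fun i => algebraMap F L (![1, z] i)) =
        logHeight ((fun i => algebraMap F L (![1, z] i)) ^ m) := by
      rw [logHeight_pow]
    push_cast at e1
    rw [← logHeight_algebraMap (F := F) (M := L) ![1, z], e2, e1,
      ← logHeight_smul_eq_logHeight ((fun i => algebraMap F L (![1, z] i)) ^ m)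
        (pow_ne_zero 2 ha')]
    congr 1
    funext i
    fin_cases i
    · simp
    · have h3 : b' j ^ 2 = a' j ^ 2 * (algebraMap F L z) ^ m := by
        apply Subtype.ext
        rw [IntermediateField.coe_mul, IntermediateField.coe_pow, IntermediateField.coe_pow,
          IntermediateField.coe_pow, g1, g2, ← hz, mul_comm]
        rfl
      simpa using h3
  have h3 : logHeight ![1, z] ≤ logHeight ![1, y, z] := by
    have h4 := logHeight_comp_le ![(0 : Fin 3), 2] ![1, y, z]
    have h5 : ![1, y, z] ∘ ![(0 : Fin 3), 2] = ![1, z] := by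
      funext i
      fin_cases i <;> rfl
    rwa [h5] at h4
  have hfF : (0 : ℝ) < finrank K F := by exact_mod_cast finrank_pos
  have hfL : (0 : ℝ) < finrank F L := by exact_mod_cast finrank_pos
  have hm0 : (0 : ℝ) < m := by exact_mod_cast hm
  have h4 : (finrank ℚ L : ℝ) = finrank ℚ K * (finrank K F * finrank F L) := by
    rw [← Nat.cast_mul, ← Nat.cast_mul, finrank_mul_finrank K F L, finrank_mul_finrank ℚ K L]
  rw [← mul_div_assoc, le_div_iff₀ hfF]
  have h5 : (finrank F L : ℝ) * (finrank ℚ K * (2 * (k - 2 * j) * Real.log 2) * finrank K F) ≤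
      finrank F L * (m * logHeight ![1, z]) := by
    calc _ = 2 * ((finrank ℚ L : ℝ) * ((k - 2 * j) * Real.log 2)) := by rw [h4]; ring
      _ ≤ 2 * logHeight ![a' j, b' j] := by linarith
      _ = _ := by rw [h2]; ring
  exact (le_of_mul_le_mul_left h5 hfL).trans (mul_le_mul_of_nonneg_left h3 hm0.le)

end

end ESD
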