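import Mathlib

/-!
# Discriminants of Galois extensions of number fields, unramified outside an integer

Leaf module of `ESD` (problem MP_9b9442).

Paper proof of `differentIdeal_dvd`. Put `𝔇 = differentIdeal (𝓞 K) (𝓞 M)`, `n = [M : K]`.
(1) `mem_of_map_dvd`: if `J` is a nonzero ideal of `𝓞 K` with `J 𝓞_M ∣ 𝔇`, then `n ∈ J`: for
`y ∈ J⁻¹` (fractional ideal of `K`) one has `y ∈ (J 𝓞_M)⁻¹`, so `n y = Tr(y) ∈ 𝓞 K` by
`differentialIdeal_le_iff`; so `n J⁻¹ ≤ 1`, `n ∈ J`.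
(2) `𝔇` is invariant under `Gal(M/K)`.
(3) Use `dvd_iff_emultiplicity_le` / prime powers: let `P ^ k ∣ 𝔇`, `P` a nonzero prime of `𝓞 M`,
`p = P.under`. If `A ∉ P`, then `P` is unramified and `k = 0`. Otherwise let `e` be the
multiplicity of `P` in `p 𝓞_M` and `k = q e + r`, `r < e`. Then `(p 𝓞_M) ^ q ∣ 𝔇`: if
`Q ^ l ∣ (p 𝓞_M) ^ q` with `l ≥ 1`, then `Q` lies over `p`, `Q = σ P`, `P ^ l ∣ (p 𝓞_M) ^ q`, so
`l ≤ q e`, `P ^ l ∣ 𝔇`, `Q ^ l ∣ σ 𝔇 = 𝔇`. By (1) `n ∈ p ^ q`, so `P ^ (q e) ∣ (n)`; and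
`A ∈ P` gives `A ∈ p`, `P ^ e ∣ p 𝓞_M ∣ (A)`. So `P ^ k ∣ P ^ (q e + e) ∣ (n A)`.
-/

set_option autoImplicit false

open NumberField Module

namespace ESD

section aux

open nonZeroDivisors

variable {K M : Type*} [Field K] [NumberField K] [Field M] [NumberField M] [Algebra K M]

/-- Membership form of `differentialIdeal_le_iff`. -/
theorem dvd_different_iff {I : Ideal (𝓞 M)} (hI : I ≠ ⊥) :
    I ∣ differentIdeal (𝓞 K) (𝓞 M) ↔
      ∀ y : M, (∀ z ∈ I, ∃ w : 𝓞 M, (w : M) = y * (z : M)) →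
        ∃ w : 𝓞 K, (w : K) = Algebra.trace K M y := by
  have hI' : ((I : FractionalIdeal (𝓞 M)⁰ M)) ≠ 0 := by
    simpa using hI
  rw [Ideal.dvd_iff_le, differentialIdeal_le_iff (A := 𝓞 K) (K := K) (L := M) hI]
  rw [Submodule.map_le_iff_le_comap]
  constructor
  · intro h y hy
    have h1 : y ∈ ((I : FractionalIdeal (𝓞 M)⁰ M)⁻¹) := by
      rw [FractionalIdeal.mem_inv_iff hI']
      intro z hz
      obtain ⟨z', hz', rfl⟩ := (FractionalIdeal.mem_coeIdeal _).mp hz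
      obtain ⟨w, hw⟩ := hy z' hz'
      rw [FractionalIdeal.mem_one_iff]
      exact ⟨w, hw⟩
    have h2 := h h1
    obtain ⟨w, hw⟩ := Submodule.mem_one.mp h2
    exact ⟨w, hw⟩
  · intro h y hy
    have hy' : y ∈ ((I : FractionalIdeal (𝓞 M)⁰ M)⁻¹) := hy
    rw [FractionalIdeal.mem_inv_iff hI'] at hy'
    obtain ⟨w, hw⟩ := h y (by
      intro z hz
      obtain ⟨w, hw⟩ := (FractionalIdeal.mem_one_iff _).mp
        (hy' (z : M) ((FractionalIdeal.mem_coeIdeal _).mpr ⟨z, hz, rfl⟩))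
      exact ⟨w, hw⟩)
    exact Submodule.mem_one.mpr ⟨w, hw⟩

end aux

theorem mem_of_map_dvd {K M : Type*} [Field K] [NumberField K] [Field M] [NumberField M]
    [Algebra K M] (J : Ideal (𝓞 K)) (hJ : J ≠ ⊥)
    (h : J.map (algebraMap (𝓞 K) (𝓞 M)) ∣ differentIdeal (𝓞 K) (𝓞 M)) :
    (finrank K M : 𝓞 K) ∈ J := by
  have hinj : Function.Injective (algebraMap (𝓞 K) (𝓞 M)) :=
    FaithfulSMul.algebraMap_injective _ _
  have hI0 : J.map (algebraMap (𝓞 K) (𝓞 M)) ≠ ⊥ := by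
    rw [ne_eq, Ideal.map_eq_bot_iff_of_injective hinj]
    exact hJ
  rw [dvd_different_iff hI0] at h
  have hJ' : ((J : FractionalIdeal (nonZeroDivisors (𝓞 K)) K)) ≠ 0 := by
    simpa using hJ
  have key : FractionalIdeal.spanSingleton (nonZeroDivisors (𝓞 K)) (finrank K M : K) *
      ((J : FractionalIdeal (nonZeroDivisors (𝓞 K)) K))⁻¹ ≤ 1 := by
    rw [FractionalIdeal.spanSingleton_mul_le_iff]
    intro y hy
    rw [FractionalIdeal.mem_inv_iff hJ'] at hy
    obtain ⟨w, hw⟩ := h (algebraMap K M y) (by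
      intro z hz
      induction hz using Submodule.span_induction with
      | mem z hz =>
        obtain ⟨x, hx, rfl⟩ := hz
        obtain ⟨w, hw⟩ := (FractionalIdeal.mem_one_iff _).mp
          (hy (x : K) ((FractionalIdeal.mem_coeIdeal _).mpr ⟨x, hx, rfl⟩))
        refine ⟨algebraMap (𝓞 K) (𝓞 M) w, ?_⟩
        change algebraMap K M (w : K) = algebraMap K M y * algebraMap K M (x : K)
        rw [← map_mul]
        congr 1
      | zero => exact ⟨0, by simp⟩
      | add a b _ _ ha hb =>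
        obtain ⟨u, hu⟩ := ha
        obtain ⟨v, hv⟩ := hb
        refine ⟨u + v, ?_⟩
        have e1 : ((u + v : 𝓞 M) : M) = (u : M) + (v : M) := rfl
        have e2 : ((a + b : 𝓞 M) : M) = (a : M) + (b : M) := rfl
        rw [e1, e2, hu, hv, mul_add]
      | smul c a _ ha =>
        obtain ⟨u, hu⟩ := ha
        refine ⟨c * u, ?_⟩
        have e1 : ((c * u : 𝓞 M) : M) = (c : M) * (u : M) := rfl
        have e2 : ((c • a : 𝓞 M) : M) = (c : M) * (a : M) := rfl
        rw [e1, e2, hu]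
        ring)
    rw [FractionalIdeal.mem_one_iff]
    refine ⟨w, ?_⟩
    rw [Algebra.trace_algebraMap, nsmul_eq_mul] at hw
    exact hw
  have h2 := (mul_inv_le_iff₀ (pos_iff_ne_zero.mpr hJ')).mp key
  rw [one_mul, FractionalIdeal.spanSingleton_le_iff_mem] at h2
  obtain ⟨x, hx, hx2⟩ := (FractionalIdeal.mem_coeIdeal _).mp h2
  have : x = (finrank K M : 𝓞 K) := by
    apply RingOfIntegers.ext
    simpa using hx2
  rwa [← this]

section galois

open Pointwise

variable {K M : Type*} [Field K] [NumberField K] [Field M] [NumberField M] [Algebra K M]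

theorem smul_dvd_different (σ : M ≃ₐ[K] M) {I : Ideal (𝓞 M)} (hI : I ≠ ⊥)
    (h : I ∣ differentIdeal (𝓞 K) (𝓞 M)) : σ • I ∣ differentIdeal (𝓞 K) (𝓞 M) := by
  have hI2 : σ • I ≠ ⊥ := by
    intro h0
    apply hI
    have := congrArg (fun J => σ⁻¹ • J) h0
    simpa using this
  rw [dvd_different_iff hI] at h
  rw [dvd_different_iff hI2]
  intro y hy
  obtain ⟨w, hw⟩ := h (σ.symm y) (by
    intro z hz
    obtain ⟨w, hw⟩ := hy (σ • z) (Ideal.smul_mem_pointwise_smul σ z I hz)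
    refine ⟨σ⁻¹ • w, ?_⟩
    change σ.symm (w : M) = σ.symm y * (z : M)
    have e : ((σ • z : 𝓞 M) : M) = σ z := rfl
    rw [hw, e, map_mul, AlgEquiv.symm_apply_apply])
  refine ⟨w, ?_⟩
  rw [hw]
  exact Algebra.trace_eq_of_algEquiv σ.symm y

end galois

theorem dvd_of_prime_pow {M : Type*} [Field M] [NumberField M] {a b : Ideal (𝓞 M)} (ha : a ≠ ⊥)
    (h : ∀ P : Ideal (𝓞 M), Prime P → ∀ k : ℕ, 1 ≤ k → P ^ k ∣ a → P ^ k ∣ b) : a ∣ b := by
  rw [UniqueFactorizationMonoid.dvd_iff_emultiplicity_le (by simpa using ha)]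
  intro P hP
  rw [emultiplicity_le_emultiplicity_iff]
  intro n hn
  rcases Nat.eq_zero_or_pos n with rfl | h0
  · simp
  · exact h P hP n h0 hn

open Pointwise in
theorem differentIdeal_dvd {K M : Type*} [Field K] [NumberField K] [Field M] [NumberField M]
    [Algebra K M] [IsGalois K M] (A : ℕ) (hA : A ≠ 0)
    (h : ∀ P : Ideal (𝓞 M), P.IsPrime → (A : 𝓞 M) ∉ P →
      ¬ P ∣ differentIdeal (𝓞 K) (𝓞 M)) :
    differentIdeal (𝓞 K) (𝓞 M) ∣ Ideal.span {((finrank K M * A : ℕ) : 𝓞 M)} := by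
  have hinj : Function.Injective (algebraMap (𝓞 K) (𝓞 M)) :=
    FaithfulSMul.algebraMap_injective _ _
  refine dvd_of_prime_pow differentIdeal_ne_bot ?_
  intro P hP k hk hPk
  have hPp : P.IsPrime := Ideal.isPrime_of_prime hP
  have hP0 : P ≠ ⊥ := hP.ne_zero
  have hAP : (A : 𝓞 M) ∈ P := by
    by_contra hAP
    exact h P hPp hAP ((dvd_pow_self P (by omega)).trans hPk)
  obtain ⟨p, hp⟩ : ∃ p : Ideal (𝓞 K), p = P.under (𝓞 K) := ⟨_, rfl⟩
  have hpp : p.IsPrime := by rw [hp]; infer_instance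
  have hAp : (A : 𝓞 K) ∈ p := by
    rw [hp, Ideal.under, Ideal.mem_comap, map_natCast]
    exact hAP
  have hp0 : p ≠ ⊥ := by
    rintro h0
    rw [h0, Ideal.mem_bot] at hAp
    exact hA (by exact_mod_cast hAp)
  have hpm : p.IsMaximal := hpp.isMaximal hp0
  obtain ⟨I, hI⟩ : ∃ I : Ideal (𝓞 M), I = p.map (algebraMap (𝓞 K) (𝓞 M)) := ⟨_, rfl⟩
  have hI0 : I ≠ ⊥ := by
    rw [hI, ne_eq, Ideal.map_eq_bot_iff_of_injective hinj]
    exact hp0
  have hIP : P ∣ I := by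
    rw [Ideal.dvd_iff_le, hI, Ideal.map_le_iff_le_comap, hp]
  have hfin : FiniteMultiplicity P I := FiniteMultiplicity.of_prime_left hP hI0
  obtain ⟨e, he⟩ : ∃ e : ℕ, e = multiplicity P I := ⟨_, rfl⟩
  have he1 : 1 ≤ e := by
    rw [he]; exact multiplicity_pos_of_dvd hIP
  have hPe : P ^ e ∣ I := by
    rw [he]; exact pow_multiplicity_dvd _ _
  obtain ⟨q, hq⟩ : ∃ q : ℕ, q = k / e := ⟨_, rfl⟩
  have hqk : q * e ≤ k := by
    rw [hq]; exact Nat.div_mul_le_self k e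
  have hkq : k ≤ e * q + e := by
    rw [hq]
    have := Nat.lt_mul_div_succ k (by omega : 0 < e)
    rw [mul_add, mul_one] at this
    exact this.le
  have hIq : I ^ q ∣ differentIdeal (𝓞 K) (𝓞 M) := by
    refine dvd_of_prime_pow (pow_ne_zero _ hI0) ?_
    intro Q hQ l hl hQl
    have hQI : Q ∣ I := hQ.dvd_of_dvd_pow ((dvd_pow_self Q (by omega)).trans hQl)
    have hQp : Q.IsPrime := Ideal.isPrime_of_prime hQ
    have hover : Q.under (𝓞 K) = p := by
      have h1 : p ≤ Q.under (𝓞 K) := by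
        rw [Ideal.dvd_iff_le, hI, Ideal.map_le_iff_le_comap] at hQI
        exact hQI
      have h2 : (Q.under (𝓞 K)).IsPrime := inferInstance
      exact (hpm.eq_of_le h2.ne_top h1).symm
    obtain ⟨σ, hσ⟩ : ∃ σ : M ≃ₐ[K] M, Q = σ • P :=
      Algebra.IsInvariant.exists_smul_of_under_eq (𝓞 K) (𝓞 M) (M ≃ₐ[K] M) P Q
        (by rw [hover, hp])
    have hσI : σ⁻¹ • I = I := by
      rw [hI, Ideal.pointwise_smul_def, Ideal.map_map]
      congr 1
      ext x
      exact (σ⁻¹).commutes (x : K)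
    have h1 : P ^ l ∣ I ^ q := by
      have h0 : σ⁻¹ • (Q ^ l) ∣ σ⁻¹ • (I ^ q) :=
        map_dvd (MulSemiringAction.toRingHom (M ≃ₐ[K] M) (Ideal (𝓞 M)) σ⁻¹) hQl
      rwa [smul_pow', smul_pow', hσI, hσ, inv_smul_smul] at h0
    have h2 : l ≤ q * e := by
      have h0 := (hfin.pow hP).le_multiplicity_of_pow_dvd h1
      rwa [hfin.multiplicity_pow hP, ← he] at h0
    have h3 : P ^ l ∣ differentIdeal (𝓞 K) (𝓞 M) := (pow_dvd_pow P (h2.trans hqk)).trans hPk
    have h4 := smul_dvd_different σ (pow_ne_zero l hP0) h3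
    rwa [smul_pow', ← hσ] at h4
  have hmem : (finrank K M : 𝓞 K) ∈ p ^ q :=
    mem_of_map_dvd (p ^ q) (pow_ne_zero _ hp0) (by rw [Ideal.map_pow, ← hI]; exact hIq)
  rw [Ideal.dvd_iff_le, Ideal.span_singleton_le_iff_mem]
  have h5 : ((finrank K M : ℕ) : 𝓞 M) ∈ P ^ (e * q) := by
    have h0 := Ideal.mem_map_of_mem (algebraMap (𝓞 K) (𝓞 M)) hmem
    rw [map_natCast, Ideal.map_pow, ← hI] at h0
    have h1 : I ^ q ≤ P ^ (e * q) := by
      rw [pow_mul]
      exact Ideal.pow_right_mono (Ideal.dvd_iff_le.mp hPe) q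
    exact h1 h0
  have h6 : ((A : ℕ) : 𝓞 M) ∈ P ^ e := by
    have h0 := Ideal.mem_map_of_mem (algebraMap (𝓞 K) (𝓞 M)) hAp
    rw [map_natCast, ← hI] at h0
    exact Ideal.dvd_iff_le.mp hPe h0
  have h7 : ((finrank K M * A : ℕ) : 𝓞 M) ∈ P ^ (e * q + e) := by
    rw [pow_add]
    push_cast
    exact Ideal.mul_mem_mul h5 h6
  exact Ideal.pow_le_pow_right hkq h7

/-- The logarithmic discriminant of a Galois extension `M / K` of number fields unramified outside
the integer `A` is at most `[K : ℚ] log ([M : K] A)`. -/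
theorem logDisc_le {K M : Type*} [Field K] [NumberField K] [Field M] [NumberField M]
    [Algebra K M] [IsGalois K M] (A : ℕ) (hA : A ≠ 0)
    (h : ∀ P : Ideal (𝓞 M), P.IsPrime → (A : 𝓞 M) ∉ P →
      ¬ P ∣ differentIdeal (𝓞 K) (𝓞 M)) :
    Real.log |(discr M : ℝ)| / finrank K M - Real.log |(discr K : ℝ)| ≤
      finrank ℚ K * Real.log (finrank K M * A) := by
  have hn : 0 < finrank K M := finrank_pos
  have hdvd := differentIdeal_dvd (K := K) (M := M) A hA h
  have h1 := Ideal.absNorm_dvd_absNorm_of_le (Ideal.dvd_iff_le.mp hdvd)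
  have h2 : Ideal.absNorm (Ideal.span {((finrank K M * A : ℕ) : 𝓞 M)}) =
      (finrank K M * A) ^ finrank ℚ M := by
    rw [Ideal.absNorm_span_singleton]
    have e : ((finrank K M * A : ℕ) : 𝓞 M) = algebraMap ℤ (𝓞 M) ((finrank K M * A : ℕ) : ℤ) := by
      simp
    rw [e, Algebra.norm_algebraMap, ← RingOfIntegers.rank, Int.natAbs_pow, Int.natAbs_natCast]
  rw [h2] at h1
  have hpos : 0 < (finrank K M * A) ^ finrank ℚ M := by positivity
  have h3 : Ideal.absNorm (differentIdeal (𝓞 K) (𝓞 M)) ≤ (finrank K M * A) ^ finrank ℚ M :=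
    Nat.le_of_dvd hpos h1
  have h4 := natAbs_discr_eq_absNorm_differentIdeal_mul_natAbs_discr_pow K (𝓞 K) M (𝓞 M)
  have hK0 : (0 : ℝ) < |(discr K : ℝ)| := by
    rw [abs_pos]; exact_mod_cast discr_ne_zero K
  have hD0 : (0 : ℝ) < Ideal.absNorm (differentIdeal (𝓞 K) (𝓞 M)) := by
    have : Ideal.absNorm (differentIdeal (𝓞 K) (𝓞 M)) ≠ 0 := by
      rw [ne_eq, Ideal.absNorm_eq_zero_iff]
      exact differentIdeal_ne_bot
    exact_mod_cast Nat.pos_of_ne_zero this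
  have h5 : |(discr M : ℝ)| = (Ideal.absNorm (differentIdeal (𝓞 K) (𝓞 M)) : ℝ) *
      |(discr K : ℝ)| ^ finrank K M := by
    have e1 : ∀ z : ℤ, |(z : ℝ)| = ((z.natAbs : ℕ) : ℝ) := by
      intro z
      rw [Nat.cast_natAbs, Int.cast_abs]
    rw [e1, e1, h4]
    push_cast
    rfl
  rw [h5, Real.log_mul hD0.ne' (pow_ne_zero _ hK0.ne'), Real.log_pow, add_div,
    mul_div_cancel_left₀ _ (by exact_mod_cast hn.ne' : (finrank K M : ℝ) ≠ 0), add_sub_cancel_right,
    div_le_iff₀ (by exact_mod_cast hn)]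
  have h6 : Real.log (Ideal.absNorm (differentIdeal (𝓞 K) (𝓞 M)) : ℝ) ≤
      Real.log (((finrank K M * A) ^ finrank ℚ M : ℕ) : ℝ) :=
    Real.log_le_log hD0 (by exact_mod_cast h3)
  refine h6.trans (le_of_eq ?_)
  push_cast
  rw [Real.log_pow, ← finrank_mul_finrank ℚ K M]
  push_cast
  ring

/-- The logarithmic discriminant grows with the field. -/
theorem logDisc_mono (K F M : Type*) [Field K] [NumberField K] [Field F] [NumberField F]
    [Field M] [NumberField M] [Algebra K F] [Algebra F M] [Algebra K M] [IsScalarTower K F M] :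
    Real.log |(discr F : ℝ)| / finrank K F ≤ Real.log |(discr M : ℝ)| / finrank K M := by
  have hn : 0 < finrank K F := finrank_pos
  have hn2 : 0 < finrank F M := finrank_pos
  have h4 := natAbs_discr_eq_absNorm_differentIdeal_mul_natAbs_discr_pow F (𝓞 F) M (𝓞 M)
  have hF0 : (0 : ℝ) < |(discr F : ℝ)| := by
    rw [abs_pos]; exact_mod_cast discr_ne_zero F
  have hD1 : (1 : ℝ) ≤ Ideal.absNorm (differentIdeal (𝓞 F) (𝓞 M)) := by
    have : Ideal.absNorm (differentIdeal (𝓞 F) (𝓞 M)) ≠ 0 := by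
      rw [ne_eq, Ideal.absNorm_eq_zero_iff]
      exact differentIdeal_ne_bot
    exact_mod_cast Nat.pos_of_ne_zero this
  have h5 : |(discr M : ℝ)| = (Ideal.absNorm (differentIdeal (𝓞 F) (𝓞 M)) : ℝ) *
      |(discr F : ℝ)| ^ finrank F M := by
    have e1 : ∀ z : ℤ, |(z : ℝ)| = ((z.natAbs : ℕ) : ℝ) := by
      intro z
      rw [Nat.cast_natAbs, Int.cast_abs]
    rw [e1, e1, h4]
    push_cast
    rfl
  have h6 : (finrank F M : ℝ) * Real.log |(discr F : ℝ)| ≤ Real.log |(discr M : ℝ)| := by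
    rw [← Real.log_pow]
    refine Real.log_le_log (pow_pos hF0 _) ?_
    rw [h5]
    exact le_mul_of_one_le_left (pow_nonneg hF0.le _) hD1
  rw [← finrank_mul_finrank K F M]
  push_cast
  have a1 : (0 : ℝ) < finrank K F := by exact_mod_cast hn
  have a2 : (0 : ℝ) < finrank F M := by exact_mod_cast hn2
  rw [div_le_div_iff₀ a1 (mul_pos a1 a2)]
  nlinarith [mul_le_mul_of_nonneg_left h6 a1.le]

end ESD
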