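import Mathlib

/-!
# Primes with trivial inertia group are unramified

Leaf module of `ESD` (problem MP_9b9442). Mathlib: `Ideal.card_inertia_eq_ramificationIdxIn`,
`Ideal.ramificationIdxIn_eq_ramificationIdx`, `Ideal.ramificationIdx_eq_one_iff`,
`not_dvd_differentIdeal_iff`.
-/

set_option autoImplicit false

open NumberField Module

namespace ESD

/-- If no nontrivial `σ` in `Gal(M/K)` satisfies `σ x ≡ x mod P` for all `x`, then `P` does not
divide the different. -/
theorem not_dvd_differentIdeal {K M : Type*} [Field K] [NumberField K] [Field M]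
    [NumberField M] [Algebra K M] [IsGalois K M] (P : Ideal (𝓞 M)) [P.IsPrime]
    (h : ∀ σ : M ≃ₐ[K] M, (∀ x y : 𝓞 M, (y : M) = σ x - x → y ∈ P) → σ = 1) :
    ¬ P ∣ differentIdeal (𝓞 K) (𝓞 M) := by
  let : MulSemiringAction Gal(M/K) (𝓞 M) := IsIntegralClosure.MulSemiringAction (𝓞 K) K M (𝓞 M)
  have : IsGaloisGroup Gal(M/K) (𝓞 K) (𝓞 M) :=
    IsGaloisGroup.of_isFractionRing Gal(M/K) (𝓞 K) (𝓞 M) K M
  have hin : Nat.card (P.inertia Gal(M/K)) = 1 := by
    rw [Nat.card_eq_one_iff_unique]
    refine ⟨⟨fun a b => ?_⟩, ⟨1⟩⟩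
    have ha : ∀ a : P.inertia Gal(M/K), (a : Gal(M/K)) = 1 := by
      intro a
      refine h _ fun x y hy => ?_
      have h1 := a.2 x
      have h2 : y = (a : Gal(M/K)) • x - x := by
        apply RingOfIntegers.coe_injective
        refine hy.trans ?_
        rw [map_sub]
        congr 1
        exact (algebraMap_galRestrict_apply (𝓞 K) (a : Gal(M/K)) x).symm
      rw [h2]
      exact h1
    exact Subtype.ext ((ha a).trans (ha b).symm)
  have hp : (P.under (𝓞 K)).IsPrime := inferInstance
  have hr : P.ramificationIdx (𝓞 K) = 1 := by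
    rw [← Ideal.ramificationIdxIn_eq_ramificationIdx (P.under (𝓞 K)) P Gal(M/K),
      ← Ideal.card_inertia_eq_ramificationIdxIn (G := Gal(M/K)) (P.under (𝓞 K)) P, hin]
  rw [not_dvd_differentIdeal_iff]
  exact Ideal.ramificationIdx_eq_one_iff.mp hr

end ESD
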