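import Pool.Agent.ESD.Agm
import Pool.Agent.ESD.Unram
import Pool.Agent.ESD.Disc

/-!
# The field generated by a chain and by the points above it, and its normal closure
-/

set_option autoImplicit false

open NumberField Module IntermediateField

namespace ESD

section root

variable {K M : Type*} [Field K] [Field M] [Algebra K M]

/-- An element of the inertia group fixes the roots of exponent prime to `P` which are prime to
`P`. -/
theorem root_fixed (P : Ideal (𝓞 M)) [P.IsPrime] (σ : M ≃ₐ[K] M)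
    (hσ : ∀ x y : 𝓞 M, (y : M) = σ x - x → y ∈ P) (ℓ : ℕ) (hℓ : (ℓ : 𝓞 M) ∉ P)
    (x : 𝓞 M) (hx : x ∉ P) (h : σ (x : M) ^ ℓ = (x : M) ^ ℓ) : σ (x : M) = x := by
  have hP : P.IsPrime := inferInstance
  have hint : IsIntegral ℤ (σ (x : M)) := x.isIntegral_coe.map σ
  obtain ⟨y, hy⟩ : ∃ y : 𝓞 M, (y : M) = σ (x : M) := ⟨⟨_, hint⟩, rfl⟩
  have hyx : y - x ∈ P := hσ x (y - x) (by rw [← hy]; simp)
  have hpow : y ^ ℓ = x ^ ℓ := by
    apply FaithfulSMul.algebraMap_injective (𝓞 M) M
    have hy' : algebraMap (𝓞 M) M y = σ (x : M) := hy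
    rw [map_pow, map_pow, hy']
    exact h
  by_contra hne
  have hne' : y - x ≠ 0 := by
    intro h0
    apply hne
    rw [← hy, sub_eq_zero.1 h0]
  have hgeom : (∑ i ∈ Finset.range ℓ, y ^ i * x ^ (ℓ - 1 - i)) * (y - x) = 0 := by
    rw [Commute.geom_sum₂_mul (Commute.all y x), hpow, sub_self]
  have hsum : (∑ i ∈ Finset.range ℓ, y ^ i * x ^ (ℓ - 1 - i)) = 0 :=
    (mul_eq_zero.1 hgeom).resolve_right hne'
  have hq : Ideal.Quotient.mk P y = Ideal.Quotient.mk P x := Ideal.Quotient.eq.2 hyx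
  have h1 := congrArg (Ideal.Quotient.mk P) hsum
  rw [map_sum] at h1
  simp only [map_mul, map_pow, hq, map_zero] at h1
  rw [← map_zero (Ideal.Quotient.mk P)] at h1
  have h2 : (∑ i ∈ Finset.range ℓ, (Ideal.Quotient.mk P x) ^ i *
      (Ideal.Quotient.mk P x) ^ (ℓ - 1 - i)) =
      Ideal.Quotient.mk P ((ℓ : 𝓞 M) * x ^ (ℓ - 1)) := by
    rw [Finset.sum_congr rfl (g := fun _ => (Ideal.Quotient.mk P x) ^ (ℓ - 1))]
    · simp
    · intro i hi
      rw [Finset.mem_range] at hi
      rw [← pow_add]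
      congr 1
      omega
  rw [h2, map_zero, Ideal.Quotient.eq_zero_iff_mem] at h1
  rcases hP.mem_or_mem h1 with h3 | h3
  · exact hℓ h3
  · exact hx (hP.mem_of_pow_mem _ h3)

theorem IsAgm.fixed {k J : ℕ} {a b : ℕ → 𝓞 M} (h : IsAgm k J a b)
    (P : Ideal (𝓞 M)) [P.IsPrime] (h2 : (2 : 𝓞 M) ∉ P)
    (ha : (1 - 2 ^ (2 * k) : 𝓞 M) ∉ P) (σ : M ≃ₐ[K] M)
    (hσ : ∀ x y : 𝓞 M, (y : M) = σ x - x → y ∈ P) :
    ∀ j ≤ J, σ (a j : M) = a j ∧ σ (b j : M) = b j := by
  have hP : P.IsPrime := inferInstance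
  have hn := h.not_mem P h2 ha
  have hF := h.map (algebraMap (𝓞 M) M)
  intro j
  induction j with
  | zero =>
    intro hj
    refine ⟨?_, ?_⟩
    · rw [h.a0]
      simp
    · have h0 : (b 0 : M) = 2 ^ k := hF.b0
      rw [h0]
      simp [map_ofNat]
  | succ j ih =>
    intro hj
    obtain ⟨hx, hy⟩ := ih (by omega)
    obtain ⟨nx, ny, nz⟩ := hn (j + 1) hj
    refine ⟨?_, ?_⟩
    · have h0 : (a (j + 1) : M) = (a j : M) + (b j : M) := hF.a1 j (by omega)
      rw [h0, map_add, hx, hy]
    · apply root_fixed P σ hσ 2 (by exact_mod_cast h2) _ ny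
      rw [← map_pow]
      have h0 : (b (j + 1) : M) ^ 2 = 4 * ((a j : M) * (b j : M)) := hF.b1 j (by omega)
      rw [h0]
      simp [hx, hy, map_ofNat]

end root

section degree

variable {K Ω : Type*} [Field K] [Field Ω] [Algebra K Ω]

theorem exists_step (L : IntermediateField K Ω) [FiniteDimensional K L] (x : Ω) (k : ℕ)
    (hk : 1 ≤ k) (hx : x ^ k ∈ L) :
    ∃ L' : IntermediateField K Ω, L ≤ L' ∧ x ∈ L' ∧ FiniteDimensional K L' ∧
      finrank K L' ≤ k * finrank K L := by
  have hint : IsIntegral L x := by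
    apply IsIntegral.of_pow (n := k) hk
    exact isIntegral_algebraMap (R := L) (A := Ω) (x := ⟨x ^ k, hx⟩)
  have hfd : FiniteDimensional L L⟮x⟯ := adjoin.finiteDimensional hint
  have hfd' : FiniteDimensional K L⟮x⟯ := FiniteDimensional.trans K L L⟮x⟯
  refine ⟨L⟮x⟯.restrictScalars K, ?_, ?_, hfd', ?_⟩
  · intro a ha
    exact (L⟮x⟯).algebraMap_mem ⟨a, ha⟩
  · exact mem_adjoin_simple_self L x
  · have h1 : finrank K L * finrank L L⟮x⟯ = finrank K L⟮x⟯ := finrank_mul_finrank K L L⟮x⟯
    have h2 : finrank L L⟮x⟯ ≤ k := by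
      rw [adjoin.finrank hint]
      have h3 : minpoly L x ∣ Polynomial.X ^ k - Polynomial.C (⟨x ^ k, hx⟩ : L) := by
        apply minpoly.dvd
        simp
      have h4 := Polynomial.natDegree_le_of_dvd h3 (Polynomial.X_pow_sub_C_ne_zero hk _)
      rwa [Polynomial.natDegree_X_pow_sub_C] at h4
    calc finrank K (L⟮x⟯.restrictScalars K) = finrank K L * finrank L L⟮x⟯ := h1.symm
      _ ≤ finrank K L * k := Nat.mul_le_mul_left _ h2
      _ = k * finrank K L := Nat.mul_comm _ _

theorem IsAgm.exists_field {k J : ℕ} {a b : ℕ → Ω} (h : IsAgm k J a b) :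
    ∀ j ≤ J, ∃ L : IntermediateField K Ω, FiniteDimensional K L ∧
      finrank K L ≤ 2 ^ j ∧ ∀ i ≤ j, a i ∈ L ∧ b i ∈ L := by
  intro j
  induction j with
  | zero =>
    intro _
    refine ⟨⊥, inferInstance, by simp, ?_⟩
    intro i hi
    obtain rfl : i = 0 := by omega
    refine ⟨?_, ?_⟩
    · rw [h.a0]
      exact one_mem _
    · rw [h.b0]
      exact pow_mem (ofNat_mem _ 2) _
  | succ j ih =>
    intro hj
    obtain ⟨L, h1, h2, h3⟩ := ih (by omega)
    obtain ⟨hx, hz⟩ := h3 j le_rfl
    obtain ⟨L1, a1, a2, a3, a4⟩ := exists_step L (b (j + 1)) 2 (by omega) (by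
      rw [h.b1 j (by omega)]
      exact mul_mem (ofNat_mem _ 4) (mul_mem hx hz))
    refine ⟨L1, a3, ?_, ?_⟩
    · calc finrank K L1 ≤ 2 * finrank K L := a4
        _ ≤ 2 * 2 ^ j := Nat.mul_le_mul_left _ h2
        _ = 2 ^ (j + 1) := by ring
    · intro i hi
      rcases Nat.lt_or_ge i (j + 1) with hlt | hge
      · obtain ⟨d1, d2⟩ := h3 i (by omega)
        exact ⟨a1 d1, a1 d2⟩
      · obtain rfl : i = j + 1 := by omega
        refine ⟨?_, a2⟩
        rw [h.a1 j (by omega)]
        exact add_mem (a1 hx) (a1 hz)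

end degree

section general

variable {K Ω : Type*} [Field K] [Field Ω] [Algebra K Ω] (L : IntermediateField K Ω)

/-- An automorphism of the normal closure which fixes the images of all embeddings is trivial. -/
theorem eq_one_of_fixes (σ : Gal((normalClosure K L Ω)/K))
    (h : ∀ f : L →ₐ[K] normalClosure K L Ω, ∀ a, σ (f a) = f a) : σ = 1 := by
  set N : IntermediateField K (normalClosure K L Ω) := fixedField (Subgroup.zpowers σ) with hN
  have hmem : ∀ x : normalClosure K L Ω, σ x = x → x ∈ N := by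
    intro x hx
    rw [hN, mem_fixedField_iff]
    intro τ hτ
    have h1 : Subgroup.zpowers σ ≤ MulAction.stabilizer (Gal((normalClosure K L Ω)/K)) x := by
      rw [Subgroup.zpowers_le, MulAction.mem_stabilizer_iff]
      exact hx
    exact h1 hτ
  have hle : normalClosure K L Ω ≤ IntermediateField.lift N := by
    rw [normalClosure_le_iff]
    rintro f _ ⟨a, rfl⟩
    have h2 : (f a : Ω) = ((normalClosure.algHomEquiv K L Ω).symm f a : normalClosure K L Ω) := rfl
    change f a ∈ _
    rw [h2, mem_lift]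
    exact hmem _ (h _ a)
  ext x
  have hx : (x : Ω) ∈ IntermediateField.lift N := hle x.2
  rw [mem_lift, hN, mem_fixedField_iff] at hx
  have := hx σ (Subgroup.mem_zpowers σ)
  rw [this]
  rfl

/-- The degree of the normal closure is at most the factorial of the degree. -/
theorem finrank_normalClosure_le [CharZero K] [Normal K Ω] [FiniteDimensional K L] :
    finrank K (normalClosure K L Ω) ≤ (finrank K L).factorial := by
  classical
  have hG : IsGalois K (normalClosure K L Ω) := by
    have : Normal K (normalClosure K L Ω) := inferInstance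
    exact ⟨⟩
  rw [← IsGalois.card_aut_eq_finrank]
  have : Finite (L →ₐ[K] normalClosure K L Ω) := inferInstance
  let φ : Gal((normalClosure K L Ω)/K) → Equiv.Perm (L →ₐ[K] normalClosure K L Ω) := fun σ =>
    { toFun := fun f => (σ : normalClosure K L Ω →ₐ[K] normalClosure K L Ω).comp f
      invFun := fun f => (σ.symm : normalClosure K L Ω →ₐ[K] normalClosure K L Ω).comp f
      left_inv := fun f => by ext; simp
      right_inv := fun f => by ext; simp }
  have hφ : Function.Injective φ := by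
    intro σ τ h
    have h1 : τ⁻¹ * σ = 1 := by
      apply eq_one_of_fixes
      intro f a
      have h2 := congrArg (fun e => e f a) h
      change σ (f a) = τ (f a) at h2
      rw [AlgEquiv.mul_apply, h2]
      exact τ.symm_apply_apply _
    exact (inv_mul_eq_one.1 h1).symm
  have : Fintype (L →ₐ[K] normalClosure K L Ω) := Fintype.ofFinite _
  calc Nat.card (Gal((normalClosure K L Ω)/K))
      ≤ Nat.card (Equiv.Perm (L →ₐ[K] normalClosure K L Ω)) := Nat.card_le_card_of_injective φ hφ
    _ = (Fintype.card (L →ₐ[K] normalClosure K L Ω)).factorial := by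
        rw [Nat.card_eq_fintype_card, Fintype.card_perm]
    _ ≤ (finrank K L).factorial := by
        apply Nat.factorial_le
        rw [← Nat.card_eq_fintype_card]
        exact card_algHom_le_finrank K L _

end general

/-- The elements of a chain, and further elements. -/
def gens {Ω ι : Type*} (J : ℕ) (a b : ℕ → Ω) (w : ι → Ω) : Set Ω :=
  {x | (∃ j ≤ J, x = a j ∨ x = b j) ∨ ∃ i, x = w i}

/-- `w i` is an `m`-th root of `a j ^ (m - 2) * (a j ^ 2 - b j ^ 2)` or of
`a j ^ (m - 2) * b j ^ 2` for a `j ≤ J`: `(a j : w i : *)` or `(a j : * : w i)` is a point of the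
Fermat curve. -/
def IsRoot {Ω ι : Type*} [CommRing Ω] (m J : ℕ) (a b : ℕ → Ω) (w : ι → Ω) : Prop :=
  ∀ i, ∃ j ≤ J, w i ^ m = a j ^ (m - 2) * (a j ^ 2 - b j ^ 2) ∨
    w i ^ m = a j ^ (m - 2) * b j ^ 2

theorem finrank_adjoin_gens {K Ω ι : Type*} [Field K] [Field Ω] [Algebra K Ω] [Fintype ι]
    {k m J : ℕ} (hm : 1 ≤ m) {a b : ℕ → Ω} {w : ι → Ω} (h : IsAgm k J a b)
    (hw : IsRoot m J a b w) :
    FiniteDimensional K (adjoin K (gens J a b w)) ∧
      finrank K (adjoin K (gens J a b w)) ≤ m ^ Fintype.card ι * 2 ^ J := by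
  classical
  have key : ∀ s : Finset ι, ∃ L : IntermediateField K Ω, FiniteDimensional K L ∧
      finrank K L ≤ m ^ s.card * 2 ^ J ∧ (∀ j ≤ J, a j ∈ L ∧ b j ∈ L) ∧ ∀ i ∈ s, w i ∈ L := by
    intro s
    induction s using Finset.induction_on with
    | empty =>
      obtain ⟨L, h1, h2, h3⟩ := h.exists_field (K := K) J le_rfl
      exact ⟨L, h1, by simpa using h2, h3, by simp⟩
    | insert i s hi ih =>
      obtain ⟨L, h1, h2, h3, h4⟩ := ih
      obtain ⟨j, hj, hwj⟩ := hw i
      obtain ⟨haj, hbj⟩ := h3 j hj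
      obtain ⟨L', c1, c2, c3, c4⟩ := exists_step L (w i) m hm (by
        rcases hwj with hwj | hwj
        · rw [hwj]
          exact mul_mem (pow_mem haj _) (sub_mem (pow_mem haj _) (pow_mem hbj _))
        · rw [hwj]
          exact mul_mem (pow_mem haj _) (pow_mem hbj _))
      refine ⟨L', c3, ?_, fun j hj => ⟨c1 (h3 j hj).1, c1 (h3 j hj).2⟩, ?_⟩
      · rw [Finset.card_insert_of_notMem hi, pow_succ]
        calc finrank K L' ≤ m * finrank K L := c4
          _ ≤ m * (m ^ s.card * 2 ^ J) := Nat.mul_le_mul_left _ h2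
          _ = m ^ s.card * m * 2 ^ J := by ring
      · intro i' hi'
        rcases Finset.mem_insert.1 hi' with rfl | hi'
        · exact c2
        · exact c1 (h4 i' hi')
  obtain ⟨L, h1, h2, h3, h4⟩ := key Finset.univ
  have hle : adjoin K (gens J a b w) ≤ L := by
    rw [adjoin_le_iff]
    rintro x (⟨j, hj, rfl | rfl⟩ | ⟨i, rfl⟩)
    · exact (h3 j hj).1
    · exact (h3 j hj).2
    · exact h4 i (Finset.mem_univ i)
  refine ⟨FiniteDimensional.of_injective (inclusion hle).toLinearMap
    (inclusion_injective hle), ?_⟩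
  rw [Finset.card_univ] at h2
  exact (finrank_le_of_le_right hle).trans h2

/-- The normal closure of the field generated by a chain and by roots is unramified outside
`2 m (2 ^ (2 k) - 1)`. -/
theorem not_dvd_of_not_mem {K Ω ι : Type*} [Field K] [NumberField K] [Field Ω] [Algebra K Ω]
    {k m J : ℕ} (hm : 1 ≤ m) {a b : ℕ → Ω} {w : ι → Ω} (h : IsAgm k J a b)
    (hw : IsRoot m J a b w) (L : IntermediateField K Ω) (hL : L = adjoin K (gens J a b w))
    [NumberField (normalClosure K L Ω)] [IsGalois K (normalClosure K L Ω)]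
    (P : Ideal (𝓞 (normalClosure K L Ω))) [P.IsPrime]
    (hP : ((2 * m * (2 ^ (2 * k) - 1) : ℕ) : 𝓞 (normalClosure K L Ω)) ∉ P) :
    ¬ P ∣ differentIdeal (𝓞 K) (𝓞 (normalClosure K L Ω)) := by
  have hPp : P.IsPrime := inferInstance
  have h2 : (2 : 𝓞 (normalClosure K L Ω)) ∉ P := by
    intro hmem
    apply hP
    rw [mul_assoc, Nat.cast_mul]
    exact P.mul_mem_right _ (by exact_mod_cast hmem)
  have hmP : (m : 𝓞 (normalClosure K L Ω)) ∉ P := by
    intro hmem
    apply hP
    rw [Nat.cast_mul, Nat.cast_mul]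
    exact P.mul_mem_right _ (P.mul_mem_left _ hmem)
  have ha : (1 - 2 ^ (2 * k) : 𝓞 (normalClosure K L Ω)) ∉ P := by
    intro hmem
    apply hP
    rw [Nat.cast_mul, Nat.cast_sub Nat.one_le_two_pow]
    apply P.mul_mem_left
    rw [← neg_mem_iff]
    convert hmem using 1
    push_cast
    ring
  apply not_dvd_differentIdeal
  intro σ hσ
  apply eq_one_of_fixes
  intro f
  -- the chain in `L`
  have hmemL : ∀ x ∈ gens J a b w, x ∈ L := fun x hx => by
    rw [hL]
    exact subset_adjoin K _ hx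
  obtain ⟨a', b', hc, hc'⟩ := h.exists_preimage (L.val : L →+* Ω) L.val.injective
    (fun j hj => ⟨⟨⟨a j, hmemL _ (Or.inl ⟨j, hj, Or.inl rfl⟩)⟩, rfl⟩,
      ⟨⟨b j, hmemL _ (Or.inl ⟨j, hj, Or.inr rfl⟩)⟩, rfl⟩⟩)
  have hfc := hc.map (f : L →+* normalClosure K L Ω)
  have hfi := hfc.isIntegral
  obtain ⟨U, V, hd, hd'⟩ := hfc.exists_preimage
    (algebraMap (𝓞 (normalClosure K L Ω)) (normalClosure K L Ω))
    (FaithfulSMul.algebraMap_injective _ _)
    (fun j hj => ⟨⟨⟨_, (hfi j hj).1⟩, rfl⟩, ⟨⟨_, (hfi j hj).2⟩, rfl⟩⟩)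
  have hfix := hd.fixed P h2 ha σ hσ
  have hnm := hd.not_mem P h2 ha
  have hpow' : ∀ {x : 𝓞 (normalClosure K L Ω)} (k : ℕ), x ∉ P → x ^ k ∉ P := by
    intro x k hx hmem
    exact hx (hPp.mem_of_pow_mem k hmem)
  have hmul : ∀ {x y : 𝓞 (normalClosure K L Ω)}, x ∉ P → y ∉ P → x * y ∉ P := by
    intro x y hx hy hmem
    rcases hPp.mem_or_mem hmem with h1 | h1
    · exact hx h1
    · exact hy h1
  -- the key step: roots of units are fixed
  have hroot : ∀ (x : L) (u : 𝓞 (normalClosure K L Ω)), u ∉ P →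
      f x ^ m = algebraMap _ _ u → σ (algebraMap _ _ u) = algebraMap _ _ u → σ (f x) = f x := by
    intro x u hu hxu hσu
    have hint : IsIntegral ℤ (f x) := by
      apply IsIntegral.of_pow (n := m) hm
      rw [hxu]
      exact u.isIntegral_coe
    obtain ⟨y, hy⟩ : ∃ y : 𝓞 (normalClosure K L Ω), algebraMap _ _ y = f x :=
      ⟨⟨f x, hint⟩, rfl⟩
    have hyu : y ^ m = u := by
      apply FaithfulSMul.algebraMap_injective (𝓞 (normalClosure K L Ω)) (normalClosure K L Ω)
      rw [map_pow, hy, hxu]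
    have hyP : y ∉ P := by
      intro hmem
      apply hu
      rw [← hyu]
      exact P.pow_mem_of_mem hmem _ hm
    have h5 := root_fixed P σ hσ m hmP y hyP (by
      change σ (algebraMap _ _ y) ^ m = (algebraMap _ _ y) ^ m
      rw [hy, hxu, ← map_pow, hxu, hσu])
    change σ (algebraMap _ _ y) = algebraMap _ _ y at h5
    rwa [hy] at h5
  have hcomp : ((σ : normalClosure K L Ω →ₐ[K] normalClosure K L Ω).comp f) = f := by
    apply algHom_ext_of_eq_adjoin K hL
    intro x hx
    have hmem : x ∈ L := hmemL x hx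
    change σ (f ⟨x, hmem⟩) = f ⟨x, hmem⟩
    rcases hx with ⟨j, hj, ha1 | ha1⟩ | ⟨i, hi⟩
    · have h6 : (⟨x, hmem⟩ : L) = a' j := by
        apply Subtype.ext
        exact ha1.trans (hc' j hj).1.symm
      have h7 := (hfix j hj).1
      change σ (algebraMap _ _ (U j)) = algebraMap _ _ (U j) at h7
      rw [(hd' j hj).1] at h7
      rw [h6]
      exact h7
    · have h6 : (⟨x, hmem⟩ : L) = b' j := by
        apply Subtype.ext
        exact ha1.trans (hc' j hj).2.symm
      have h7 := (hfix j hj).2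
      change σ (algebraMap _ _ (V j)) = algebraMap _ _ (V j) at h7
      rw [(hd' j hj).2] at h7
      rw [h6]
      exact h7
    · obtain ⟨j, hj, hwj⟩ := hw i
      obtain ⟨f1, f2⟩ := hfix j hj
      obtain ⟨n1, n2, n3⟩ := hnm j hj
      obtain ⟨e1, e2⟩ := hd' j hj
      obtain ⟨g1, g2⟩ := hc' j hj
      change (a' j : Ω) = a j at g1
      change (b' j : Ω) = b j at g2
      change σ (algebraMap _ _ (U j)) = algebraMap _ _ (U j) at f1
      change σ (algebraMap _ _ (V j)) = algebraMap _ _ (V j) at f2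
      change algebraMap _ _ (U j) = f (a' j) at e1
      change algebraMap _ _ (V j) = f (b' j) at e2
      rcases hwj with hwj | hwj
      · apply hroot _ (U j ^ (m - 2) * (U j ^ 2 - V j ^ 2)) (hmul (hpow' _ n1) n3)
        · rw [map_mul, map_sub, map_pow, map_pow, map_pow, e1, e2]
          rw [← map_pow, ← map_pow, ← map_pow, ← map_pow, ← map_sub, ← map_mul]
          congr 1
          apply Subtype.ext
          simp only [SubmonoidClass.mk_pow, IntermediateField.coe_mul, AddSubgroupClass.coe_sub,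
            IntermediateField.coe_pow, g1, g2]
          rw [hi]
          exact hwj
        · simp only [map_mul, map_sub, map_pow, f1, f2]
      · apply hroot _ (U j ^ (m - 2) * V j ^ 2) (hmul (hpow' _ n1) (hpow' _ n2))
        · rw [map_mul, map_pow, map_pow, e1, e2]
          rw [← map_pow, ← map_pow, ← map_pow, ← map_mul]
          congr 1
          apply Subtype.ext
          simp only [SubmonoidClass.mk_pow, IntermediateField.coe_mul,
            IntermediateField.coe_pow, g1, g2]
          rw [hi]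
          exact hwj
        · simp only [map_mul, map_pow, f1, f2]
  intro x
  exact congrArg (fun g => g x) hcomp

end ESD
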