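import Mathlib

/-!
# The height of the doubling map

Leaf module of `ESD` (problem MP_9b9442).
-/

set_option autoImplicit false

open NumberField Module Height

namespace ESD

theorem logHeight_signs {M : Type*} [Field M] [NumberField M] :
    logHeight (fun ji : Fin 2 × Fin 2 => (if ji = (1, 1) then (-1 : M) else 1)) ≤ 0 := by
  have h2 : (fun ji : Fin 2 × Fin 2 => (if ji = (1, 1) then (-1 : M) else 1)) ^ 2 = 1 := by
    funext ji
    by_cases h : ji = (1, 1) <;> simp [h]
  have h1 := logHeight_pow (fun ji : Fin 2 × Fin 2 => (if ji = (1, 1) then (-1 : M) else 1)) 2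
  rw [h2, logHeight_one] at h1
  push_cast at h1
  linarith

theorem logHeight_add_sub_le {M : Type*} [Field M] [NumberField M] (u w : M) :
    logHeight ![u + w, u - w] ≤ logHeight ![u, w] + finrank ℚ M * Real.log 2 := by
  have h := logHeight_linearMap_apply_le
    (fun ji : Fin 2 × Fin 2 => (if ji = (1, 1) then (-1 : M) else 1)) ![u, w]
  have h1 : (fun j => ∑ i, (fun ji : Fin 2 × Fin 2 => (if ji = (1, 1) then (-1 : M) else 1))
      (j, i) * ![u, w] i) = ![u + w, u - w] := by
    funext j
    fin_cases j
    · simp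
    · simp [sub_eq_add_neg]
  rw [h1, NumberField.totalWeight_eq_finrank, Nat.card_eq_fintype_card, Fintype.card_fin] at h
  have h2 := logHeight_signs (M := M)
  push_cast at h
  linarith

theorem two_mul_logHeight_le {M : Type*} [Field M] [NumberField M] (u w : M) :
    2 * logHeight ![u, w] ≤
      logHeight ![u ^ 2 + w ^ 2, 2 * u * w] + 3 * (finrank ℚ M * Real.log 2) := by
  have h1 := logHeight_add_sub_le (u + w) (u - w)
  have h2 : ![(u + w) + (u - w), (u + w) - (u - w)] = (2 : M) • ![u, w] := by
    funext j
    fin_cases j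
    · simp; ring
    · simp; ring
  rw [h2, logHeight_smul_eq_logHeight _ (two_ne_zero)] at h1
  have h3 := logHeight_add_sub_le (u ^ 2 + w ^ 2) (2 * u * w)
  have h4 : ![(u ^ 2 + w ^ 2) + 2 * u * w, (u ^ 2 + w ^ 2) - 2 * u * w] =
      ![u + w, u - w] ^ 2 := by
    funext j
    fin_cases j
    · simp; ring
    · simp; ring
  rw [h4, logHeight_pow] at h3
  push_cast at h3
  linarith

end ESD
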