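import Mathlib

/-!
# Elimination of the `y`-coordinates on a power of the Fermat curve

If `G(y, z)` does not vanish at every point of `y_i ^ m + z_i ^ m = 1`, there is a nonzero
polynomial `N(z)` such that for `N(z) ≠ 0`, `z_i ^ m ≠ 1`, one can choose `y` with
`y_i ^ m + z_i ^ m = 1` and `G(y, z) ≠ 0`.
-/

set_option autoImplicit false

open MvPolynomial

namespace ESD

section

variable {K Ω : Type*} [Field K] [Field Ω] [Algebra K Ω] {n : ℕ}

/-- The exponents of the `y`-coordinates modulo `m`. -/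
noncomputable def redExp (m : ℕ) (d : (Fin n ⊕ Fin n) →₀ ℕ) : Fin n →₀ ℕ :=
  Finsupp.equivFunOnFinite.symm fun i => d (.inl i) % m

/-- The coefficient of a reduced monomial. -/
noncomputable def redCoeff (m : ℕ) (G : MvPolynomial (Fin n ⊕ Fin n) K)
    (d : (Fin n ⊕ Fin n) →₀ ℕ) : MvPolynomial (Fin n) K :=
  C (coeff d G) * ∏ i, (X i ^ d (.inr i) * (1 - X i ^ m) ^ (d (.inl i) / m))

/-- The coefficient of `y ^ e` in the reduction of `G`. -/
noncomputable def redPoly (m : ℕ) (G : MvPolynomial (Fin n ⊕ Fin n) K) (e : Fin n →₀ ℕ) :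
    MvPolynomial (Fin n) K :=
  ∑ d ∈ G.support with redExp m d = e, redCoeff m G d

theorem degreeOf_redPoly {m : ℕ} (G : MvPolynomial (Fin n ⊕ Fin n) K) (e : Fin n →₀ ℕ) (i : Fin n) :
    (redPoly m G e).degreeOf i ≤ G.degreeOf (.inl i) + G.degreeOf (.inr i) := by
  unfold redPoly
  refine (degreeOf_sum_le i _ _).trans (Finset.sup_le ?_)
  intro d hd
  have hd' : d ∈ G.support := (Finset.mem_filter.1 hd).1
  unfold redCoeff
  refine (degreeOf_C_mul_le _ _ _).trans ((degreeOf_prod_le i _ _).trans ?_)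
  have hterm : ∀ j : Fin n, (X j ^ d (.inr j) * (1 - X j ^ m) ^ (d (.inl j) / m) :
      MvPolynomial (Fin n) K).degreeOf i ≤ if j = i then d (.inl i) + d (.inr i) else 0 := by
    intro j
    refine (degreeOf_mul_le _ _ _).trans ?_
    have h1 : (1 - X j ^ m : MvPolynomial (Fin n) K).degreeOf i ≤ if j = i then m else 0 := by
      refine (degreeOf_sub_le _ _ _).trans ?_
      rw [degreeOf_one]
      by_cases hji : j = i
      · subst hji
        simp
      · rw [degreeOf_X_pow_of_ne m (fun h => hji h.symm)]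
        simp
    by_cases hji : j = i
    · subst hji
      rw [if_pos rfl] at h1 ⊢
      rw [degreeOf_X_self_pow]
      have h2 := degreeOf_pow_le j (1 - X j ^ m : MvPolynomial (Fin n) K) (d (.inl j) / m)
      have h3 : d (.inl j) / m * (1 - X j ^ m : MvPolynomial (Fin n) K).degreeOf j ≤
          d (.inl j) := (Nat.mul_le_mul_left _ h1).trans (Nat.div_mul_le_self _ _)
      omega
    · rw [if_neg hji] at h1 ⊢
      rw [degreeOf_X_pow_of_ne _ (fun h => hji h.symm)]
      have h2 := degreeOf_pow_le i (1 - X j ^ m : MvPolynomial (Fin n) K) (d (.inl j) / m)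
      have h3 : (1 - X j ^ m : MvPolynomial (Fin n) K).degreeOf i = 0 := Nat.le_zero.1 h1
      rw [h3, mul_zero] at h2
      omega
  refine (Finset.sum_le_sum fun j _ => hterm j).trans ?_
  rw [Finset.sum_ite_eq' Finset.univ i, if_pos (Finset.mem_univ i)]
  exact Nat.add_le_add (le_degreeOf_of_mem_support _ hd') (le_degreeOf_of_mem_support _ hd')

/-- The reduction of `G` at the value `z`, a polynomial in `y`. -/
noncomputable def redAt (m : ℕ) (G : MvPolynomial (Fin n ⊕ Fin n) K) (z : Fin n → Ω) :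
    MvPolynomial (Fin n) Ω :=
  ∑ d ∈ G.support, monomial (redExp m d) (aeval z (redCoeff m G d))

theorem coeff_redAt (m : ℕ) (G : MvPolynomial (Fin n ⊕ Fin n) K) (z : Fin n → Ω)
    (e : Fin n →₀ ℕ) : coeff e (redAt m G z) = aeval z (redPoly m G e) := by
  classical
  unfold redAt redPoly
  rw [coeff_sum, map_sum, Finset.sum_filter]
  apply Finset.sum_congr rfl
  intro d _
  rw [coeff_monomial]

theorem degreeOf_redAt {m : ℕ} (hm : 1 ≤ m) (G : MvPolynomial (Fin n ⊕ Fin n) K)
    (z : Fin n → Ω) (i : Fin n) : (redAt m G z).degreeOf i < m := by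
  rw [degreeOf_lt_iff (by omega)]
  intro e he
  rw [mem_support_iff, coeff_redAt] at he
  have h1 : redPoly m G e ≠ 0 := by
    intro h0
    rw [h0, map_zero] at he
    exact he rfl
  obtain ⟨d, hd, -⟩ := Finset.exists_ne_zero_of_sum_ne_zero h1
  rw [← (Finset.mem_filter.1 hd).2]
  exact Nat.mod_lt _ (by omega)

theorem eval_redAt {m : ℕ} (G : MvPolynomial (Fin n ⊕ Fin n) K)
    (y z : Fin n → Ω) (h : ∀ i, y i ^ m + z i ^ m = 1) :
    eval y (redAt m G z) = aeval (Sum.elim y z) G := by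
  unfold redAt
  rw [map_sum]
  conv_rhs => rw [G.as_sum, map_sum]
  apply Finset.sum_congr rfl
  intro d _
  rw [eval_monomial, aeval_monomial, redCoeff, map_mul, aeval_C, mul_assoc]
  congr 1
  rw [map_prod, Finsupp.prod_fintype _ _ (by simp), Finsupp.prod_fintype _ _ (by simp),
    Fintype.prod_sum_type, ← Finset.prod_mul_distrib, ← Finset.prod_mul_distrib]
  apply Finset.prod_congr rfl
  intro i _
  have h1 : (1 : Ω) - z i ^ m = y i ^ m := by
    rw [← h i]
    ring
  simp only [map_mul, map_pow, map_sub, map_one, aeval_X, Sum.elim_inl, Sum.elim_inr, redExp,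
    Finsupp.equivFunOnFinite_symm_apply_apply, h1]
  conv_rhs => rw [← Nat.div_add_mod (d (.inl i)) m, pow_add, pow_mul]
  ring

theorem exists_elim [IsAlgClosed Ω] [CharZero Ω] {m : ℕ} (hm : 1 ≤ m)
    (G : MvPolynomial (Fin n ⊕ Fin n) K)
    (hG : ∃ y z : Fin n → Ω, (∀ i, y i ^ m + z i ^ m = 1) ∧ aeval (Sum.elim y z) G ≠ 0)
    (D : ℕ) (hD : ∀ i, G.degreeOf (.inl i) + G.degreeOf (.inr i) < D) :
    ∃ N : MvPolynomial (Fin n) K, N ≠ 0 ∧ (∀ i, N.degreeOf i < D) ∧
      ∀ z : Fin n → Ω, (∀ i, z i ^ m ≠ 1) → aeval z N ≠ 0 →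
        ∃ y : Fin n → Ω, (∀ i, y i ^ m + z i ^ m = 1) ∧ aeval (Sum.elim y z) G ≠ 0 := by
  classical
  obtain ⟨y0, z0, h0, hne⟩ := hG
  rw [← eval_redAt G y0 z0 h0] at hne
  have h1 : redAt m G z0 ≠ 0 := by
    intro h
    rw [h, map_zero] at hne
    exact hne rfl
  obtain ⟨e, he⟩ := MvPolynomial.ne_zero_iff.1 h1
  rw [coeff_redAt] at he
  refine ⟨redPoly m G e, fun h => he (by rw [h, map_zero]),
    fun i => (degreeOf_redPoly G e i).trans_lt (hD i), ?_⟩
  intro z hz hNz
  by_contra hcon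
  push Not at hcon
  have hm0 : NeZero (m : Ω) := ⟨by exact_mod_cast (by omega : m ≠ 0)⟩
  obtain ⟨ζ, hζ⟩ := HasEnoughRootsOfUnity.exists_primitiveRoot Ω m
  have h2 : redAt m G z = 0 := by
    apply eq_zero_of_eval_zero_at_prod_finset _
      (fun i => (Polynomial.nthRoots m (1 - z i ^ m)).toFinset)
    · intro i
      have h3 : (1 : Ω) - z i ^ m ≠ 0 := sub_ne_zero.2 (fun h => hz i h.symm)
      have h4 : ((Polynomial.nthRoots m (1 - z i ^ m)).toFinset).card = m := by
        rw [Multiset.toFinset_card_of_nodup (hζ.nthRoots_nodup h3), hζ.card_nthRoots, if_pos]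
        exact IsAlgClosed.exists_pow_nat_eq _ (by omega)
      rw [h4]
      exact degreeOf_redAt hm G z i
    · intro y hy
      have hy' : ∀ i, y i ^ m + z i ^ m = 1 := by
        intro i
        have h3 := hy i
        rw [Multiset.mem_toFinset, Polynomial.mem_nthRoots (by omega)] at h3
        rw [h3]
        ring
      rw [eval_redAt G y z hy']
      exact hcon y hy'
  apply hNz
  rw [← coeff_redAt, h2, coeff_zero]

end

end ESD
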