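import Mathlib

/-!
# Non-vanishing of a polynomial by 2-adic sizes

Leaf module of `ESD` (problem MP_9b9442). If `‖t i‖ = 2 ^ (-(s / 2 ^ (i J) + c i))` with `c`
fixed, `s → ∞`, then the monomials of a polynomial of degree `< 2 ^ J` in each variable have
different sizes: `∑ i, α i / 2 ^ (i J)`, `α i < 2 ^ J`, determines `α` (digits in base `2 ^ J`).
Take the exponent `α` of `N` with the smallest value of this sum: for large `s` its term has
norm strictly larger than all the others, and the norm is nonarchimedean.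
-/

set_option autoImplicit false

open MvPolynomial

namespace ESD

/-- Digits in base `B`: the sum with increasing powers determines the digits. -/
theorem digits_injective_nat {B : ℕ} : ∀ {n : ℕ} (δ ε : Fin n → ℕ),
    (∀ i, δ i < B) → (∀ i, ε i < B) →
    ∑ i, δ i * B ^ (i : ℕ) = ∑ i, ε i * B ^ (i : ℕ) → δ = ε := by
  intro n
  induction n with
  | zero => intro δ ε _ _ _; exact Subsingleton.elim _ _
  | succ n ih =>
    intro δ ε hδ hε h
    have hB : 0 < B := lt_of_le_of_lt (Nat.zero_le _) (hδ 0)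
    have e : ∀ γ : Fin (n + 1) → ℕ, ∑ i, γ i * B ^ (i : ℕ) =
        γ 0 + B * ∑ i : Fin n, γ i.succ * B ^ (i : ℕ) := by
      intro γ
      rw [Fin.sum_univ_succ, Finset.mul_sum]
      simp only [Fin.val_zero, pow_zero, mul_one, Fin.val_succ]
      congr 1
      refine Finset.sum_congr rfl fun i _ => ?_
      ring
    rw [e δ, e ε] at h
    have h0 : δ 0 = ε 0 := by
      have := congrArg (· % B) h
      simpa [Nat.add_mul_mod_self_left, Nat.mod_eq_of_lt (hδ 0), Nat.mod_eq_of_lt (hε 0)] using this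
    have h1 : ∑ i : Fin n, δ i.succ * B ^ (i : ℕ) = ∑ i : Fin n, ε i.succ * B ^ (i : ℕ) := by
      rw [h0] at h
      exact Nat.eq_of_mul_eq_mul_left hB (Nat.add_left_cancel h)
    have h2 := ih (fun i => δ i.succ) (fun i => ε i.succ) (fun i => hδ _) (fun i => hε _) h1
    funext i
    refine Fin.cases h0 (fun j => congrFun h2 j) i

/-- Digits in base `B`: the sum with decreasing powers determines the digits. -/
theorem digits_injective {B : ℕ} (hB : 0 < B) {n : ℕ} (α β : Fin n → ℕ)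
    (hα : ∀ i, α i < B) (hβ : ∀ i, β i < B)
    (h : ∑ i, (α i : ℝ) / (B : ℝ) ^ (i : ℕ) = ∑ i, (β i : ℝ) / (B : ℝ) ^ (i : ℕ)) : α = β := by
  have hB' : (B : ℝ) ≠ 0 := by exact_mod_cast hB.ne'
  have key : ∀ γ : Fin n → ℕ, (∑ i, (γ i : ℝ) / (B : ℝ) ^ (i : ℕ)) * (B : ℝ) ^ (n - 1) =
      ((∑ i : Fin n, γ (Fin.rev i) * B ^ (i : ℕ) : ℕ) : ℝ) := by
    intro γ
    rw [Finset.sum_mul, Nat.cast_sum, ← Equiv.sum_comp Fin.revPerm]
    refine Finset.sum_congr rfl fun i _ => ?_
    simp only [Fin.revPerm_apply, Nat.cast_mul, Nat.cast_pow]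
    have hi : ((Fin.rev i : Fin n) : ℕ) + (i : ℕ) = n - 1 := by
      rw [Fin.val_rev]; omega
    rw [← hi, pow_add]
    field_simp
  have h2 : (∑ i : Fin n, α (Fin.rev i) * B ^ (i : ℕ)) =
      ∑ i : Fin n, β (Fin.rev i) * B ^ (i : ℕ) := by
    have := key α
    rw [h, key β] at this
    exact_mod_cast this.symm
  have h3 := digits_injective_nat (fun i => α (Fin.rev i)) (fun i => β (Fin.rev i))
    (fun i => hα _) (fun i => hβ _) h2
  funext i
  simpa using congrFun h3 (Fin.rev i)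

theorem exists_forall_ne_zero {K Ω : Type*} [Field K] [NormedField Ω]
    (hΩ : IsNonarchimedean (norm : Ω → ℝ)) (φ : K →+* Ω) {n : ℕ} (N : MvPolynomial (Fin n) K)
    (hN : N ≠ 0) (J : ℕ) (hJ : ∀ i, N.degreeOf i < 2 ^ J) (c : Fin n → ℝ) :
    ∃ s₀ : ℕ, ∀ s : ℕ, s₀ ≤ s → ∀ t : Fin n → Ω,
      (∀ i, ‖t i‖ = (2 : ℝ) ^ (-((s : ℝ) / 2 ^ ((i : ℕ) * J) + c i))) →
        eval₂ φ t N ≠ 0 := by
  classical
  -- the size of an exponent
  set e : (Fin n →₀ ℕ) → ℝ := fun α => ∑ i, (α i : ℝ) / 2 ^ ((i : ℕ) * J) with he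
  have hsupp : N.support.Nonempty := by
    rwa [Finset.nonempty_iff_ne_empty, ne_eq, MvPolynomial.support_eq_empty]
  obtain ⟨α, hα, hmin⟩ := Finset.exists_min_image N.support e hsupp
  have hdig : ∀ β ∈ N.support, β ≠ α → e α < e β := by
    intro β hβ hne
    refine lt_of_le_of_ne (hmin β hβ) fun h => hne ?_
    have hlt : ∀ γ ∈ N.support, ∀ i, γ i < 2 ^ J := fun γ hγ i =>
      lt_of_le_of_lt (MvPolynomial.monomial_le_degreeOf i hγ) (hJ i)
    have h' : (α : Fin n → ℕ) = β := by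
      refine digits_injective (B := 2 ^ J) (by positivity) _ _ (hlt α hα) (hlt β hβ) ?_
      have : ∀ γ : Fin n →₀ ℕ, ∑ i, (γ i : ℝ) / (((2 ^ J : ℕ) : ℝ)) ^ (i : ℕ) = e γ := by
        intro γ
        rw [he]
        refine Finset.sum_congr rfl fun i _ => ?_
        rw [Nat.cast_pow, Nat.cast_ofNat, ← pow_mul, mul_comm J]
      rw [this, this, h]
    exact (DFunLike.coe_injective h').symm
  -- norm of a term
  set r : (Fin n →₀ ℕ) → ℝ := fun β => ‖φ (N.coeff β)‖ * (2 : ℝ) ^ (-∑ i, (β i : ℝ) * c i) with hr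
  have hrpos : ∀ β ∈ N.support, 0 < r β := by
    intro β hβ
    have : φ (N.coeff β) ≠ 0 := by
      rw [Ne, map_eq_zero]
      exact MvPolynomial.mem_support_iff.mp hβ
    have := norm_pos_iff.mpr this
    rw [hr]; positivity
  have hterm : ∀ (s : ℕ) (t : Fin n → Ω),
      (∀ i, ‖t i‖ = (2 : ℝ) ^ (-((s : ℝ) / 2 ^ ((i : ℕ) * J) + c i))) → ∀ β : Fin n →₀ ℕ,
      ‖φ (N.coeff β) * ∏ i, t i ^ β i‖ = r β * (2 : ℝ) ^ (-((s : ℝ) * e β)) := by
    intro s t ht β
    rw [norm_mul, hr, mul_assoc, ← Real.rpow_add (by norm_num)]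
    congr 1
    rw [norm_prod]
    simp only [norm_pow, ht]
    have : ∀ i : Fin n, ((2 : ℝ) ^ (-((s : ℝ) / 2 ^ ((i : ℕ) * J) + c i))) ^ (β i) =
        (2 : ℝ) ^ (-((s : ℝ) / 2 ^ ((i : ℕ) * J) + c i) * (β i : ℝ)) := by
      intro i
      rw [Real.rpow_mul (by norm_num), Real.rpow_natCast]
    simp only [this]
    rw [← Real.rpow_sum_of_pos (by norm_num)]
    congr 1
    rw [he, Finset.mul_sum, ← Finset.sum_neg_distrib, ← Finset.sum_neg_distrib,
      ← Finset.sum_add_distrib]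
    refine Finset.sum_congr rfl fun i _ => ?_
    ring
  -- threshold
  have hthr : ∀ β ∈ N.support, β ≠ α → ∃ s₀ : ℕ, ∀ s : ℕ, s₀ ≤ s →
      r β * (2 : ℝ) ^ (-((s : ℝ) * e β)) < r α * (2 : ℝ) ^ (-((s : ℝ) * e α)) := by
    intro β hβ hne
    have hlt := hdig β hβ hne
    have hlim : Filter.Tendsto (fun s : ℕ => r β * (2 : ℝ) ^ (-((s : ℝ) * (e β - e α))))
        Filter.atTop (nhds 0) := by
      have h1 : Filter.Tendsto (fun s : ℕ => (s : ℝ) * (e β - e α)) Filter.atTop Filter.atTop :=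
        Filter.Tendsto.atTop_mul_const (sub_pos.mpr hlt) tendsto_natCast_atTop_atTop
      have h2 : Filter.Tendsto (fun x : ℝ => (2 : ℝ) ^ (-x)) Filter.atTop (nhds 0) := by
        exact (tendsto_rpow_atBot_of_base_gt_one 2 (by norm_num)).comp Filter.tendsto_neg_atTop_atBot
      have := (h2.comp h1).const_mul (r β)
      simpa using this
    obtain ⟨s₀, hs₀⟩ := Filter.eventually_atTop.mp (hlim.eventually (gt_mem_nhds (hrpos α hα)))
    refine ⟨s₀, fun s hs => ?_⟩
    have := hs₀ s hs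
    have e1 : r β * (2 : ℝ) ^ (-((s : ℝ) * e β)) =
        (r β * (2 : ℝ) ^ (-((s : ℝ) * (e β - e α)))) * (2 : ℝ) ^ (-((s : ℝ) * e α)) := by
      rw [mul_assoc (r β), ← Real.rpow_add (by norm_num : (0 : ℝ) < 2)]
      congr 2
      ring
    rw [e1]
    exact mul_lt_mul_of_pos_right this (by positivity)
  choose! S hS using hthr
  refine ⟨N.support.sup S, fun s hs t ht h0 => ?_⟩
  rw [MvPolynomial.eval₂_eq'] at h0
  have hmax : ∀ β ∈ N.support, β ≠ α →
      ‖φ (N.coeff β) * ∏ i, t i ^ β i‖ < ‖φ (N.coeff α) * ∏ i, t i ^ α i‖ := by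
    intro β hβ hne
    rw [hterm s t ht, hterm s t ht]
    exact hS β hβ hne s ((Finset.le_sup hβ).trans hs)
  have := IsNonarchimedean.apply_sum_eq_of_lt (f := (norm : Ω → ℝ)) hΩ (fun a => (norm_neg a).symm)
    hα hmax
  rw [h0, norm_zero, hterm s t ht] at this
  have h1 := hrpos α hα
  have : 0 < r α * (2 : ℝ) ^ (-((s : ℝ) * e α)) := by positivity
  linarith

end ESD
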