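import Pool.Agent.ESD.AgmBound
import Pool.Agent.ESD.Elim
import Pool.Agent.ESD.TwoAdic

/-!
# The exceptional set of Vojta's conjecture for algebraic points depends on the degree
-/

set_option autoImplicit false

open NumberField Module IntermediateField Height MvPolynomial

namespace ESD

universe u

theorem norm_two : ‖(2 : PadicAlgCl 2)‖ = 1 / 2 := by
  have h := PadicAlgCl.valuation_p 2
  have h1 := PadicAlgCl.valuation_coe 2 ((2 : ℕ) : PadicAlgCl 2)
  rw [h] at h1
  push_cast at h1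
  rw [← h1]

theorem main (K : Type u) [Field K] [NumberField K] (n m : ℕ) (c ε : ℝ) (hc : 0 ≤ c) (hε : 0 ≤ ε)
    (h : c * m + ε * n < n * ((m : ℝ) - 3)) (J : ℕ) (G : MvPolynomial (Fin n ⊕ Fin n) K)
    (hG : ∃ y z : Fin n → AlgebraicClosure K, (∀ i, y i ^ m + z i ^ m = 1) ∧
      aeval (Sum.elim y z) G ≠ 0)
    (hdeg : ∀ i, G.degreeOf (.inl i) + G.degreeOf (.inr i) < 2 ^ J) (C : ℝ) :
    ∃ (F : IntermediateField K (AlgebraicClosure K)) (_ : NumberField F) (y z : Fin n → F),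
      (∀ i, y i ^ m + z i ^ m = 1) ∧ adjoin K (Set.range y ∪ Set.range z) = ⊤ ∧
      finrank K F ≤ m ^ (2 * n) * 2 ^ ((n - 1) * J) ∧ aeval (Sum.elim y z) G ≠ 0 ∧
      c * (Real.log |(discr F : ℝ)| / finrank K F - Real.log |(discr K : ℝ)|) +
        ε * ((∑ i, logHeight ![1, y i, z i]) / finrank K F) + C ≤
        ((m : ℝ) - 3) * ((∑ i, logHeight ![1, y i, z i]) / finrank K F) := by
  -- the numerical hypotheses
  have hn0 : 0 < n := by
    rcases Nat.eq_zero_or_pos n with h0 | h0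
    · subst h0
      exfalso
      have : 0 ≤ c * m := mul_nonneg hc (Nat.cast_nonneg _)
      push_cast at h
      linarith
    · exact h0
  have hnR : (0 : ℝ) < n := by exact_mod_cast hn0
  have hmR : (3 : ℝ) < m := by
    have h1 : 0 ≤ c * m := mul_nonneg hc (Nat.cast_nonneg _)
    have h2 : 0 ≤ ε * n := mul_nonneg hε hnR.le
    have h3 : 0 < (n : ℝ) * ((m : ℝ) - 3) := by linarith
    have := (mul_pos_iff_of_pos_left hnR).1 h3
    linarith
  have hm4 : 4 ≤ m := by
    have : 3 < m := by exact_mod_cast hmR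
    omega
  have hm1 : 1 ≤ m := by omega
  have hεm : 0 ≤ (m : ℝ) - 3 - ε := by
    have h1 : 0 ≤ c * m := mul_nonneg hc (Nat.cast_nonneg _)
    have h3 : 0 < (n : ℝ) * ((m : ℝ) - 3 - ε) := by
      have : (n : ℝ) * ((m : ℝ) - 3 - ε) = n * ((m : ℝ) - 3) - ε * n := by ring
      linarith
    exact ((mul_pos_iff_of_pos_left hnR).1 h3).le
  set δ : ℝ := ((m : ℝ) - 3 - ε) * n - c * m with hδ
  have hδ0 : 0 < δ := by
    have : δ = n * ((m : ℝ) - 3) - (c * m + ε * n) := by rw [hδ]; ring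
    linarith
  -- elimination and the 2-adic embedding
  obtain ⟨N, hN, hNdeg, helim⟩ := exists_elim (Ω := AlgebraicClosure K) hm1 G hG (2 ^ J) hdeg
  have halg : Algebra.IsAlgebraic ℚ (AlgebraicClosure K) := Algebra.IsAlgebraic.trans ℚ K _
  let φ : AlgebraicClosure K →+* PadicAlgCl 2 :=
    (IsAlgClosed.lift : AlgebraicClosure K →ₐ[ℚ] PadicAlgCl 2).toRingHom
  obtain ⟨s₀, hs₀⟩ := exists_forall_ne_zero (PadicAlgCl.isNonarchimedean 2)
    (φ.comp (algebraMap K (AlgebraicClosure K))) N hN J hNdeg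
    (fun i => 4 / m * (1 - 1 / 2 ^ ((i : ℕ) * J)))
  -- the constants
  set J' : ℕ := (n - 1) * J with hJ'
  set B : ℝ := Real.log ((m ^ Fintype.card (Fin n ⊕ Fin n) * 2 ^ J').factorial) +
    Real.log (2 * m) with hB
  set C1 : ℝ := ∑ i : Fin n, 4 * (((i : ℕ) * J : ℕ) : ℝ) / m with hC1
  set κ : ℝ := (finrank ℚ K : ℝ) with hκ
  have hκ0 : 0 < κ := by
    rw [hκ]
    exact_mod_cast finrank_pos
  have hlog2 : 0 < Real.log 2 := Real.log_pos (by norm_num)
  set T : ℝ := ((m : ℝ) - 3 - ε) * (κ * (C1 * Real.log 2)) + c * (κ * B) + C with hT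
  obtain ⟨s₁, hs₁⟩ := exists_nat_gt (T / (2 * Real.log 2 * κ * δ))
  set s : ℕ := max (max s₀ s₁) 1 with hs
  have hss0 : s₀ ≤ s := (le_max_left _ _).trans (le_max_left _ _)
  have hss1 : s₁ ≤ s := (le_max_right _ _).trans (le_max_left _ _)
  have hs1 : 1 ≤ s := le_max_right _ _
  have hTs : T ≤ 2 * Real.log 2 * κ * δ * s := by
    have h1 : T / (2 * Real.log 2 * κ * δ) < s :=
      hs₁.trans_le (by exact_mod_cast hss1)
    rw [div_lt_iff₀ (by positivity)] at h1
    linarith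
  -- the chain
  obtain ⟨a, b, hab⟩ := exists_isAgm (AlgebraicClosure K) (m * s)
  have hk2 : 2 ≤ m * s := by nlinarith
  have hk1 : 1 ≤ m * s := by omega
  have hnorm := ((hab J').map φ).norm (PadicAlgCl.isNonarchimedean 2) norm_two hk2
  have hiJ : ∀ i : Fin n, (i : ℕ) * J ≤ J' := fun i =>
    Nat.mul_le_mul_right _ (by have := i.2; omega)
  have ha0 : ∀ j ≤ J', a j ≠ 0 := by
    intro j hj h0
    have h1 := (hnorm j hj).1
    rw [h0, map_zero, norm_zero] at h1
    norm_num at h1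
  -- the `z`-coordinates
  have hzex : ∀ i : Fin n, ∃ z : AlgebraicClosure K,
      z ^ m = (b ((i : ℕ) * J) / a ((i : ℕ) * J)) ^ 2 :=
    fun i => IsAlgClosed.exists_pow_nat_eq _ (by omega)
  choose z hz using hzex
  have hzab : ∀ i : Fin n, z i ^ m * a ((i : ℕ) * J) ^ 2 = b ((i : ℕ) * J) ^ 2 := by
    intro i
    have h1 := ha0 _ (hiJ i)
    rw [hz i]
    field_simp
  have hznorm : ∀ i : Fin n, ‖φ (z i)‖ =
      (2 : ℝ) ^ (-(((2 * s : ℕ) : ℝ) / 2 ^ ((i : ℕ) * J) +
        4 / m * (1 - 1 / 2 ^ ((i : ℕ) * J)))) := by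
    intro i
    obtain ⟨h1, h2⟩ := hnorm _ (hiJ i)
    have h3 := congrArg (fun x => ‖φ x‖) (hzab i)
    simp only [map_mul, map_pow, norm_mul, norm_pow, h1, h2, one_pow, mul_one] at h3
    have h4 : ((2 : ℝ) ^ (-(((2 * s : ℕ) : ℝ) / 2 ^ ((i : ℕ) * J) +
        4 / m * (1 - 1 / 2 ^ ((i : ℕ) * J))))) ^ m =
        ((2 : ℝ) ^ (-(2 + (((m * s : ℕ) : ℝ) - 2) / 2 ^ ((i : ℕ) * J)))) ^ 2 := by
      rw [← Real.rpow_mul_natCast (by norm_num), ← Real.rpow_mul_natCast (by norm_num)]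
      congr 1
      push_cast
      have h2j : (2 : ℝ) ^ ((i : ℕ) * J) ≠ 0 := by positivity
      have hm0 : (m : ℝ) ≠ 0 := by positivity
      field_simp
      ring
    rw [← h4] at h3
    exact (pow_left_inj₀ (norm_nonneg _) (by positivity) (by omega)).1 h3
  have hzne : ∀ i, z i ^ m ≠ 1 := by
    intro i h1
    have h2 := congrArg (fun x => ‖φ x‖) h1
    simp only [map_pow, map_one, norm_pow, norm_one] at h2
    have h3 : ‖φ (z i)‖ < 1 := by
      rw [hznorm i]
      apply Real.rpow_lt_one_of_one_lt_of_neg (by norm_num)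
      have h4 : (0 : ℝ) < ((2 * s : ℕ) : ℝ) / 2 ^ ((i : ℕ) * J) := by
        have : (0 : ℝ) < ((2 * s : ℕ) : ℝ) := by exact_mod_cast (by omega : 0 < 2 * s)
        positivity
      have h5 : (0 : ℝ) ≤ 4 / m * (1 - 1 / 2 ^ ((i : ℕ) * J)) := by
        apply mul_nonneg (by positivity)
        rw [sub_nonneg, div_le_one (by positivity)]
        exact one_le_pow₀ (by norm_num)
      linarith
    have h6 : ‖φ (z i)‖ ^ m < 1 := pow_lt_one₀ (norm_nonneg _) h3 (by omega)
    linarith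
  have hNz : aeval z N ≠ 0 := by
    have h1 := hs₀ (2 * s) (by omega) (fun i => φ (z i)) hznorm
    intro h0
    apply h1
    have h2 : φ (aeval z N) = eval₂ (φ.comp (algebraMap K (AlgebraicClosure K)))
        (fun i => φ (z i)) N := by
      rw [aeval_def, MvPolynomial.eval₂_comp_left]
      rfl
    rw [← h2, h0, map_zero]
  obtain ⟨y, hyz, hGy⟩ := helim z hzne hNz
  -- the roots
  let w : Fin n ⊕ Fin n → AlgebraicClosure K :=
    Sum.elim (fun i => a ((i : ℕ) * J) * y i) (fun i => a ((i : ℕ) * J) * z i)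
  have hw : IsRoot m J' a b w := by
    rintro (i | i)
    · refine ⟨_, hiJ i, Or.inl ?_⟩
      change (a ((i : ℕ) * J) * y i) ^ m = _
      rw [mul_pow, show y i ^ m = 1 - z i ^ m by rw [← hyz i]; ring, ← hzab i]
      obtain ⟨m', rfl⟩ := Nat.exists_eq_add_of_le' (show 2 ≤ m by omega)
      rw [Nat.add_sub_cancel, pow_add]
      ring
    · refine ⟨_, hiJ i, Or.inr ?_⟩
      change (a ((i : ℕ) * J) * z i) ^ m = _
      rw [mul_pow, ← hzab i]
      obtain ⟨m', rfl⟩ := Nat.exists_eq_add_of_le' (show 2 ≤ m by omega)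
      rw [Nat.add_sub_cancel, pow_add]
      ring
  -- the residue field
  obtain ⟨F, hF⟩ : ∃ F : IntermediateField K (AlgebraicClosure K),
    F = adjoin K (Set.range y ∪ Set.range z) := ⟨_, rfl⟩
  have hFle : F ≤ adjoin K (gens J' a b w) := by
    rw [hF, adjoin_le_iff]
    have hag : ∀ i : Fin n, a ((i : ℕ) * J) ∈ adjoin K (gens J' a b w) := fun i =>
      subset_adjoin K _ (Or.inl ⟨_, hiJ i, Or.inl rfl⟩)
    rintro x (⟨i, rfl⟩ | ⟨i, rfl⟩)
    · have h1 : w (.inl i) ∈ adjoin K (gens J' a b w) := subset_adjoin K _ (Or.inr ⟨_, rfl⟩)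
      have h2 : y i = w (.inl i) / a ((i : ℕ) * J) := by
        change y i = (a ((i : ℕ) * J) * y i) / a ((i : ℕ) * J)
        rw [mul_div_cancel_left₀ _ (ha0 _ (hiJ i))]
      rw [h2]
      exact div_mem h1 (hag i)
    · have h1 : w (.inr i) ∈ adjoin K (gens J' a b w) := subset_adjoin K _ (Or.inr ⟨_, rfl⟩)
      have h2 : z i = w (.inr i) / a ((i : ℕ) * J) := by
        change z i = (a ((i : ℕ) * J) * z i) / a ((i : ℕ) * J)
        rw [mul_div_cancel_left₀ _ (ha0 _ (hiJ i))]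
      rw [h2]
      exact div_mem h1 (hag i)
  have hfdg := (finrank_adjoin_gens (K := K) hm1 (hab J') hw).1
  have hfdF : FiniteDimensional K F := finiteDimensional_of_le F _ hFle
  have hnfF : NumberField F := NumberField.of_module_finite K _
  have hyF : ∀ i, y i ∈ F := fun i => by
    rw [hF]
    exact subset_adjoin K _ (Or.inl ⟨i, rfl⟩)
  have hzF : ∀ i, z i ∈ F := fun i => by
    rw [hF]
    exact subset_adjoin K _ (Or.inr ⟨i, rfl⟩)
  refine ⟨F, hnfF, fun i => ⟨y i, hyF i⟩, fun i => ⟨z i, hzF i⟩, ?_, ?_, ?_, ?_, ?_⟩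
  · intro i
    apply Subtype.ext
    exact hyz i
  · apply lift_injective F
    rw [lift_adjoin, lift_top, Set.image_union, ← Set.range_comp, ← Set.range_comp]
    exact hF.symm
  · have h1 := finrank_le (K := K) hm1 (hab J') hw F hFle
    rwa [Fintype.card_sum, Fintype.card_fin, ← two_mul] at h1
  · intro h0
    apply hGy
    have h1 := congrArg F.val h0
    rw [map_zero, MvPolynomial.comp_aeval_apply] at h1
    have h2 : (fun i => F.val ((Sum.elim (fun i => (⟨y i, hyF i⟩ : F)) (fun i => ⟨z i, hzF i⟩)) i)) =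
        Sum.elim y z := by
      funext i
      rcases i with i | i <;> rfl
    rwa [h2] at h1
  · have hD := logDisc_field_le hm1 hk1 (hab J') hw F hFle
    have hH : ∀ i : Fin n, κ * (2 * ((m * s : ℕ) - 2 * (((i : ℕ) * J : ℕ) : ℝ)) * Real.log 2) / m ≤
        logHeight ![1, (⟨y i, hyF i⟩ : F), ⟨z i, hzF i⟩] / finrank K F := by
      intro i
      have h1 := height_ge hm1 (hab J') hw F hFle ((i : ℕ) * J) (hiJ i) (ha0 _ (hiJ i))
        (⟨y i, hyF i⟩ : F) ⟨z i, hzF i⟩ (hzab i)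
      rw [div_le_iff₀ (by positivity)]
      linarith
    have hsum : κ * ((2 * s * n - C1) * Real.log 2) ≤
        (∑ i, logHeight ![1, (⟨y i, hyF i⟩ : F), ⟨z i, hzF i⟩]) / finrank K F := by
      rw [Finset.sum_div]
      refine le_trans (le_of_eq ?_) (Finset.sum_le_sum fun i _ => hH i)
      have h1 : ∀ i : Fin n, κ * (2 * ((m * s : ℕ) - 2 * (((i : ℕ) * J : ℕ) : ℝ)) *
          Real.log 2) / m =
          κ * Real.log 2 * (2 * s) - κ * Real.log 2 * (4 * (((i : ℕ) * J : ℕ) : ℝ) / m) := by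
        intro i
        have hm0 : (m : ℝ) ≠ 0 := by positivity
        push_cast
        field_simp
        ring
      rw [Finset.sum_congr rfl (fun i _ => h1 i), Finset.sum_sub_distrib, Finset.sum_const,
        Finset.card_univ, Fintype.card_fin, nsmul_eq_mul]
      have h2 : (∑ i : Fin n, κ * Real.log 2 * (4 * (((i : ℕ) * J : ℕ) : ℝ) / m)) =
          κ * Real.log 2 * C1 := by
        rw [hC1, Finset.mul_sum]
      rw [h2]
      ring
    set H : ℝ := (∑ i, logHeight ![1, (⟨y i, hyF i⟩ : F), ⟨z i, hzF i⟩]) / finrank K F with hHdef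
    set D : ℝ := Real.log |(discr F : ℝ)| / finrank K F - Real.log |(discr K : ℝ)| with hDdef
    have h1 := mul_le_mul_of_nonneg_left hD hc
    have h2 := mul_le_mul_of_nonneg_left hsum hεm
    have h3 : c * (κ * (B + 2 * ((m * s : ℕ) : ℝ) * Real.log 2)) + C ≤
        ((m : ℝ) - 3 - ε) * (κ * ((2 * s * n - C1) * Real.log 2)) := by
      have h4 : ((m : ℝ) - 3 - ε) * (κ * ((2 * s * n - C1) * Real.log 2)) -
          (c * (κ * (B + 2 * ((m * s : ℕ) : ℝ) * Real.log 2)) + C) =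
          2 * Real.log 2 * κ * δ * s - T := by
        rw [hδ, hT]
        push_cast
        ring
      linarith
    have h5 : ((m : ℝ) - 3) * H = ((m : ℝ) - 3 - ε) * H + ε * H := by ring
    rw [h5]
    linarith

end ESD
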